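import Pool.Agent.Zk29.Nl.N7

/-!
# The recurrence bound
-/

set_option autoImplicit false
open Set Filter Topology Metric MeasureTheory Polynomial
open scoped ENNReal

namespace Pool.Agent.Zk29.Nl

open Pool.Agent.Zk29.Rat Pool.Agent.Zk29.Ab

/-- A very close passage near a critical point gives an attracting cycle. -/
theorem deep_of_close {f : ℂ → ℂ} {v : ℂ} {E θ : ℕ → ℝ} {κ : ℝ} (S : Sys f v E θ κ) {N j : ℕ}
    {G C : ℝ} (hC : 1 ≤ C) (hG : ∀ l ≤ N, DD E l ≤ G) (hj : j ≤ N) (hmin : ∀ l ≤ N, θ j ≤ θ l)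
    (hE : E j ≤ C * θ j) (hsm : 16 * κ ^ 2 * C * (N + 1) * G * θ j ≤ 1) :
    Deep f v θ κ (j + 1) := by
  have hκ := S.hκ
  have hθ := S.th j
  have hN0 : (0 : ℝ) ≤ N := Nat.cast_nonneg N
  have hG1 : 1 ≤ G := by
    have := hG 0 (by omega)
    rwa [DD_zero] at this
  obtain ⟨ρ, hρ⟩ : ∃ ρ, ρ = κ * (C * θ j * θ j) := ⟨_, rfl⟩
  have hρ0 : 0 < ρ := by rw [hρ]; positivity
  have hC0 : 0 < C := by linarith
  have hsmall : ∀ l < j + 1, DD E l * (2 * ρ) * (8 * κ * ((N + 1 : ℕ) : ℝ)) ≤ θ l := by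
    intro l hl
    have h1 := hG l (by omega)
    have h2 := hmin l (by omega)
    push_cast
    calc DD E l * (2 * ρ) * (8 * κ * ((N : ℝ) + 1))
        ≤ G * (2 * ρ) * (8 * κ * ((N : ℝ) + 1)) := by gcongr
      _ = (16 * κ ^ 2 * C * (N + 1) * G * θ j) * θ j := by rw [hρ]; ring
      _ ≤ 1 * θ j := by gcongr
      _ ≤ θ l := by rw [one_mul]; exact h2
  refine ⟨ρ, hρ0, ?_, ?_⟩
  · refine (S.val j).trans ?_
    rw [hρ]
    gcongr
  · intro x hx
    have h1 := S.shadow (N := N + 1) (m := j + 1) (by omega) (by omega) (a := 2 * ρ)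
      (by positivity) hsmall hx
    have hκG : 1 ≤ κ ^ 2 * (N + 1) := by
      have : 1 ≤ κ ^ 2 := one_le_pow₀ hκ
      nlinarith
    have h5 : 16 * C * G * θ j ≤ 1 := by
      refine le_trans ?_ hsm
      calc 16 * C * G * θ j = 16 * C * G * θ j * 1 := by ring
        _ ≤ 16 * C * G * θ j * (κ ^ 2 * (N + 1)) := by gcongr
        _ = _ := by ring
    refine ⟨fun l hl => ?_, ?_⟩
    · have h2 := h1 l (by omega)
      have h3 := hG l (by omega)
      have h4 := hmin l (by omega)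
      have hD := S.DD_pos l
      calc κ * ‖f^[l] x - f^[l] v‖ ≤ κ * (2 * (G * (2 * ρ))) := by
            gcongr
            refine h2.trans ?_
            gcongr
        _ = (4 * κ ^ 2 * C * 1 * G * θ j) * θ j := by rw [hρ]; ring
        _ ≤ (16 * κ ^ 2 * C * (N + 1) * G * θ j) * θ j := by
            gcongr
            · norm_num
            · linarith
        _ ≤ 1 * θ j := by gcongr
        _ ≤ θ l := by rw [one_mul]; exact h4
    · have h2 := h1 (j + 1) le_rfl
      rw [DD_succ] at h2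
      have h3 := hG j hj
      have hD := S.DD_pos j
      have hEj := S.E0 j
      calc ‖f^[j + 1] x - f^[j + 1] v‖ ≤ 2 * (DD E j * E j * ‖x - v‖) := h2
        _ ≤ 2 * (G * (C * θ j) * (2 * ρ)) := by gcongr
        _ = (16 * C * G * θ j) * (ρ / 4) := by ring
        _ ≤ 1 * (ρ / 4) := by gcongr
        _ = ρ / 4 := one_mul _

variable {P : ℂ[X]} {d : ℕ} {R : ℝ}

/-- A neighbourhood of `v` which returns into itself is contained in the filled Julia set. -/
lemma trapped (hE : Esc P R) {v : ℂ} {ρ : ℝ} (hρ : 0 < ρ) {m : ℕ} (hm : 1 ≤ m)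
    (h : ∀ x, ‖x - v‖ ≤ 2 * ρ → ‖(fun w : ℂ => P.eval w)^[m] x - v‖ ≤ 2 * ρ) :
    v ∉ frontier (KR P 1 (ball 0 R)) := by
  have h1 : ∀ k x, ‖x - v‖ ≤ 2 * ρ → ‖((fun w : ℂ => P.eval w)^[m])^[k] x - v‖ ≤ 2 * ρ := by
    intro k
    induction k with
    | zero => intro x hx'; exact hx'
    | succ k ih =>
      intro x hx'
      rw [Function.iterate_succ_apply]
      exact ih _ (h x hx')
  have h2 : ∀ x, ‖x - v‖ ≤ 2 * ρ → x ∈ KR P 1 (ball 0 R) := by
    intro x hx'
    rw [KR_filled hE]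
    intro hcon
    have h3 := (hcon.comp (tendsto_id.const_mul_atTop' (by omega : 0 < m))).eventually
      (eventually_gt_atTop (2 * ρ + ‖v‖))
    obtain ⟨k, hk⟩ := h3.exists
    have h4 := h1 k x hx'
    rw [← Function.iterate_mul] at h4
    simp only [Function.comp_apply, id] at hk
    have h5 := norm_sub_norm_le ((fun w : ℂ => P.eval w)^[m * k] x) v
    linarith
  intro hv
  apply hv.2
  rw [mem_interior_iff_mem_nhds]
  refine mem_of_superset (closedBall_mem_nhds v (by positivity : 0 < 2 * ρ)) fun x hx => ?_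
  rw [mem_closedBall, dist_eq_norm] at hx
  exact h2 x hx

lemma deep_trapped (hE : Esc P R) {v : ℂ} {θ : ℕ → ℝ} {κ : ℝ} {m : ℕ} (hm : 1 ≤ m)
    (h : Deep (fun w : ℂ => P.eval w) v θ κ m) : v ∉ frontier (KR P 1 (ball 0 R)) := by
  obtain ⟨ρ, hρ, hv, hx⟩ := h
  refine trapped hE hρ hm fun x hx' => ?_
  have h2 := (hx x hx').2
  have h3 := norm_add_le ((fun w : ℂ => P.eval w)^[m] x - (fun w : ℂ => P.eval w)^[m] v)
    ((fun w : ℂ => P.eval w)^[m] v - v)
  rw [sub_add_sub_cancel] at h3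
  linarith

/-- A periodic critical value. -/
lemma super_trapped (hE : Esc P R) {v : ℂ} {m : ℕ} (hm : 1 ≤ m)
    (hv : (fun w : ℂ => P.eval w)^[m] v = v)
    (h0 : deriv ((fun w : ℂ => P.eval w)^[m]) v = 0) : v ∉ frontier (KR P 1 (ball 0 R)) := by
  have h1 : HasDerivAt ((fun w : ℂ => P.eval w)^[m]) 0 v := by
    have := (iter_differentiable (P := P) m).differentiableAt (x := v).hasDerivAt
    rwa [h0] at this
  have h2 := hasDerivAt_iff_isLittleO.1 h1
  have h3 := h2.bound (by norm_num : (0 : ℝ) < 1)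
  rw [Metric.eventually_nhds_iff] at h3
  obtain ⟨ε, hε, h4⟩ := h3
  refine trapped hE (ρ := ε / 4) (by positivity) hm fun x hx => ?_
  have h5 := h4 (y := x) (by rw [dist_eq_norm]; linarith)
  rw [hv, smul_zero, sub_zero, one_mul] at h5
  linarith

/-- **The recurrence bound.** -/
theorem rec_nl (hd : 2 ≤ P.natDegree) (hE : Esc P R) {v : ℂ} (hcv : v ∈ cvs P)
    (hK : v ∈ frontier (KR P 1 (ball 0 R)))
    (hone : ∀ v' ∈ cvs P, v' ∈ KR P 1 (ball 0 R) → v' = v)
    (hgr : ∃ K : ℝ, ∀ N : ℕ, 2 ≤ N → ‖deriv ((fun w : ℂ => P.eval w)^[N]) v‖ ≤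
      Real.exp (K * Real.log N ^ 2)) :
    ∃ K : ℝ, ∀ N : ℕ, 2 ≤ N → Real.exp (-(K * Real.log N ^ 2)) ≤
      infDist ((fun w : ℂ => P.eval w)^[N] v) {c | (derivative P).eval c = 0} := by
  have T := hE.trap
  have hKK : v ∈ KR P 1 (ball 0 R) := T.kcpt.isClosed.frontier_subset hK
  have hne : ∀ j, (derivative P).eval (orb P v j) ≠ 0 := by
    intro j hj
    have h1 : orb P v (j + 1) = v := by
      rw [orb_succ]
      apply hone
      · exact (mem_cvs (by omega)).2 ⟨_, hj, rfl⟩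
      · rw [← orb_succ]
        exact orb_KR hKK _
    exact super_trapped hE (m := j + 1) (by omega) h1 (by
      rw [deriv_iter_succ, hj, zero_mul]) hK
  obtain ⟨κ, S⟩ := sys_nl hd hE hKK hone hne
  have hκ := S.hκ
  -- the derivative near the critical points
  obtain ⟨C, hC1, hC⟩ : ∃ C : ℝ, 1 ≤ C ∧ ∀ z ∈ KR P 1 (ball 0 R),
      ‖(derivative P).eval z‖ ≤ C * infDist z (Zc P) := by
    obtain ⟨b, hb⟩ : ∃ b, ∀ z ∈ closedBall (0 : ℂ) (R + ∑ c ∈ (Zc_fin hd).toFinset, ‖c‖),
        ‖(derivative (derivative P)).eval z‖ ≤ b :=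
      (isCompact_closedBall _ _).exists_bound_of_continuousOn
        (derivative (derivative P)).continuous.continuousOn
    refine ⟨1 + |b|, by have := abs_nonneg b; linarith, fun z hz => ?_⟩
    obtain ⟨c, hc, hcd⟩ := (Zc_fin hd).isCompact.exists_infDist_eq_dist (Zc_ne hd) z
    rw [hcd, dist_eq_norm]
    have hsum0 : 0 ≤ ∑ c ∈ (Zc_fin hd).toFinset, ‖c‖ := Finset.sum_nonneg fun _ _ => norm_nonneg _
    have hR := hE.one
    have hcb : c ∈ closedBall (0 : ℂ) (R + ∑ c ∈ (Zc_fin hd).toFinset, ‖c‖) := by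
      rw [mem_closedBall_zero_iff]
      have h1 := Finset.single_le_sum (f := fun c : ℂ => ‖c‖) (fun _ _ => norm_nonneg _)
        ((Zc_fin hd).mem_toFinset.2 hc)
      linarith
    have hzb : z ∈ closedBall (0 : ℂ) (R + ∑ c ∈ (Zc_fin hd).toFinset, ‖c‖) := by
      rw [mem_closedBall_zero_iff]
      have h1 : z ∈ ball (0 : ℂ) R := KR_sub 0 hz
      rw [mem_ball_zero_iff] at h1
      linarith
    have h1 := (convex_closedBall (0 : ℂ)
      (R + ∑ c ∈ (Zc_fin hd).toFinset, ‖c‖)).norm_image_sub_le_of_norm_deriv_le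
      (f := fun x => (derivative P).eval x) (C := b)
      (fun u _ => (derivative P).differentiable.differentiableAt)
      (fun u hu => by rw [Polynomial.deriv]; exact hb u hu) hcb hzb
    have h2 : (derivative P).eval c = 0 := hc
    simp only [h2, sub_zero] at h1
    refine h1.trans ?_
    gcongr
    have := le_abs_self b
    linarith
  obtain ⟨K, hKb⟩ := hgr
  -- the growth bound for all the times up to `N`
  obtain ⟨B, hB1, hB⟩ : ∃ B : ℝ, 1 ≤ B ∧ ∀ l < 2,
      DD (fun j => ‖(derivative P).eval (orb P v j)‖) l ≤ B := by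
    refine ⟨1 + DD (fun j => ‖(derivative P).eval (orb P v j)‖) 1, ?_, ?_⟩
    · have := S.DD_pos 1
      linarith
    · intro l hl
      have h1 := S.DD_pos 1
      interval_cases l
      · rw [DD_zero]
        linarith
      · linarith
  have hl2 : 0 < Real.log 2 := Real.log_pos (by norm_num)
  refine ⟨|K| + (Real.log (16 * κ ^ 2 * C * B) + 1 ) / Real.log 2 ^ 2 + 2 / Real.log 2,
    fun N hN => ?_⟩
  have hN2 : (2 : ℝ) ≤ N := by exact_mod_cast hN
  have hlN : Real.log 2 ≤ Real.log N := Real.log_le_log (by norm_num) hN2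
  obtain ⟨G, hG⟩ : ∃ G, G = B * Real.exp (|K| * Real.log N ^ 2) := ⟨_, rfl⟩
  have hexp1 : 1 ≤ Real.exp (|K| * Real.log N ^ 2) := Real.one_le_exp (by positivity)
  have hDG : ∀ l ≤ N, DD (fun j => ‖(derivative P).eval (orb P v j)‖) l ≤ G := by
    intro l hl
    rw [hG]
    rcases lt_or_ge l 2 with h | h
    · exact (hB l h).trans (le_mul_of_one_le_right (by linarith) hexp1)
    · rw [DD_deriv]
      have hl2' : (2 : ℝ) ≤ l := by exact_mod_cast h
      have h1 : Real.log l ≤ Real.log N := Real.log_le_log (by linarith) (by exact_mod_cast hl)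
      have h2 : 0 ≤ Real.log l := Real.log_nonneg (by linarith)
      calc _ ≤ Real.exp (K * Real.log l ^ 2) := hKb l h
        _ ≤ Real.exp (|K| * Real.log N ^ 2) := by
            apply Real.exp_le_exp.2
            have h3 := le_abs_self K
            calc K * Real.log l ^ 2 ≤ |K| * Real.log l ^ 2 := by gcongr
              _ ≤ _ := by gcongr
        _ ≤ B * Real.exp (|K| * Real.log N ^ 2) :=
            le_mul_of_one_le_left (Real.exp_pos _).le hB1
  obtain ⟨j, hj, hmin⟩ := Finset.exists_min_image (Finset.range (N + 1))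
    (fun j => infDist (orb P v j) (Zc P)) ⟨0, by simp⟩
  rw [Finset.mem_range] at hj
  have hmin' : ∀ l ≤ N, infDist (orb P v j) (Zc P) ≤ infDist (orb P v l) (Zc P) :=
    fun l hl => hmin l (Finset.mem_range.2 (by omega))
  have hθ := S.th j
  have hnot : ¬ (16 * κ ^ 2 * C * (N + 1) * G * infDist (orb P v j) (Zc P) ≤ 1) := by
    intro hsm
    have h1 := deep_of_close S hC1 hDG (by omega : j ≤ N) hmin' (hC _ (orb_KR hKK j)) hsm
    exact deep_trapped hE (by omega) h1 hK
  push Not at hnot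
  have h6 : infDist (orb P v j) (Zc P) ≤ infDist (orb P v N) (Zc P) := hmin' N le_rfl
  change _ ≤ infDist (orb P v N) (Zc P)
  refine le_trans ?_ h6
  have hN1 : (N : ℝ) + 1 ≤ N ^ 2 := by nlinarith
  have hGe : 16 * κ ^ 2 * C * (N + 1) * G ≤
      Real.exp ((|K| + (Real.log (16 * κ ^ 2 * C * B) + 1) / Real.log 2 ^ 2 + 2 / Real.log 2) *
        Real.log N ^ 2) := by
    have h7 : 0 < 16 * κ ^ 2 * C * B := by positivity
    have h7' : 1 ≤ 16 * κ ^ 2 * C * B := by
      have : 1 ≤ κ ^ 2 := one_le_pow₀ hκ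
      have h8 := one_le_mul_of_one_le_of_one_le this hC1
      have h9 := one_le_mul_of_one_le_of_one_le h8 hB1
      nlinarith
    have h8 : Real.log (16 * κ ^ 2 * C * B) ≤
        (Real.log (16 * κ ^ 2 * C * B) + 1) / Real.log 2 ^ 2 * Real.log N ^ 2 := by
      have h9 := Real.log_nonneg h7'
      rw [div_mul_eq_mul_div, le_div_iff₀ (by positivity)]
      have h10 : Real.log 2 ^ 2 ≤ Real.log N ^ 2 := by gcongr
      have h11 : 0 < Real.log 2 ^ 2 := by positivity
      nlinarith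
    have h9 : 2 * Real.log N ≤ 2 / Real.log 2 * Real.log N ^ 2 := by
      rw [div_mul_eq_mul_div, le_div_iff₀ hl2]
      nlinarith
    calc 16 * κ ^ 2 * C * (N + 1) * G
        = (16 * κ ^ 2 * C * B) * (N + 1) * Real.exp (|K| * Real.log N ^ 2) := by rw [hG]; ring
      _ ≤ (16 * κ ^ 2 * C * B) * N ^ 2 * Real.exp (|K| * Real.log N ^ 2) := by gcongr
      _ = Real.exp (Real.log (16 * κ ^ 2 * C * B)) * Real.exp (2 * Real.log N) *
          Real.exp (|K| * Real.log N ^ 2) := by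
          rw [Real.exp_log h7]
          congr 2
          rw [show (2 : ℝ) * Real.log N = ((2 : ℕ) : ℝ) * Real.log N by norm_num,
            Real.exp_nat_mul, Real.exp_log (by linarith)]
      _ = Real.exp (Real.log (16 * κ ^ 2 * C * B) + 2 * Real.log N + |K| * Real.log N ^ 2) := by
          rw [Real.exp_add, Real.exp_add]
      _ ≤ _ := by
          apply Real.exp_le_exp.2
          linarith
  rw [Real.exp_neg, inv_le_comm₀ (Real.exp_pos _) hθ]
  have h7 : 0 < 16 * κ ^ 2 * C * (N + 1) * G := by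
    rw [hG]
    positivity
  rw [inv_le_iff_one_le_mul₀ hθ]
  calc 1 ≤ 16 * κ ^ 2 * C * (N + 1) * G * infDist (orb P v j) (Zc P) := hnot.le
    _ ≤ _ := by gcongr

end Pool.Agent.Zk29.Nl
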