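import Pool.Agent.Zk29.Rat.Dim2
import Pool.Agent.T2H09.LU.TP

/-!
# Two near poles, and the modulus of continuity of the Cauchy transform
-/

set_option autoImplicit false
open Set Filter Topology Metric MeasureTheory Polynomial
open scoped ENNReal

namespace Pool.Agent.Zk29.Nl

open Pool.Agent.T2H09.LU Pool.Agent.Zk29.Rat Pool.Agent.H792R2.CE

theorem two_poles_gen {R : ℝ} (hR : 0 < R) {a b : ℂ} (ha : ‖a‖ ≤ R) (hb : ‖b‖ ≤ R)
    (hab : a ≠ b) : ∫⁻ w in ball (0 : ℂ) R, ‖1 / (w - a) - 1 / (w - b)‖ₑ ≤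
      ENNReal.ofReal (2 * Real.pi * (‖a - b‖ * (2 + Real.log (4 * R / ‖a - b‖)))) := by
  obtain ⟨ρ, hρ⟩ : ∃ ρ : ℝ, ‖a - b‖ = ρ := ⟨_, rfl⟩
  rw [hρ]
  have hρ0 : 0 < ρ := by rw [← hρ]; exact norm_pos_iff.mpr (sub_ne_zero.mpr hab)
  have hρ4 : ρ ≤ 2 * R := by rw [← hρ]; exact (norm_sub_le a b).trans (by linarith)
  have hπ := Real.pi_pos
  have hne : ∀ᵐ w : ℂ ∂volume, w ≠ a ∧ w ≠ b := by
    have h1 : ∀ᵐ w : ℂ ∂volume, w ∈ ({a} : Set ℂ)ᶜ := compl_mem_ae_iff.mpr (measure_singleton a)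
    have h2 : ∀ᵐ w : ℂ ∂volume, w ∈ ({b} : Set ℂ)ᶜ := compl_mem_ae_iff.mpr (measure_singleton b)
    filter_upwards [h1, h2] with w h3 h4
    exact ⟨h3, h4⟩
  have hval : ∀ w : ℂ, w ≠ a → w ≠ b → ‖1 / (w - a) - 1 / (w - b)‖ =
      ρ / (‖w - a‖ * ‖w - b‖) := by
    intro w h1 h2
    have h3 : w - a ≠ 0 := sub_ne_zero.mpr h1
    have h4 : w - b ≠ 0 := sub_ne_zero.mpr h2
    have h5 : 1 / (w - a) - 1 / (w - b) = (a - b) / ((w - a) * (w - b)) := by
      field_simp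
      ring
    rw [h5, norm_div, norm_mul, hρ]
  have hball : ∀ a' b' : ℂ, (∀ w : ℂ, w ≠ a' → w ≠ b' → ‖1 / (w - a) - 1 / (w - b)‖ =
      ρ / (‖w - a'‖ * ‖w - b'‖)) → ‖a' - b'‖ = ρ → (∀ᵐ w : ℂ ∂volume, w ≠ a' ∧ w ≠ b') →
      ∫⁻ w in ball a' (ρ / 2), ‖1 / (w - a) - 1 / (w - b)‖ₑ ≤
        ENNReal.ofReal (2 * Real.pi * ρ) := by
    intro a' b' hv hab' hne'
    calc ∫⁻ w in ball a' (ρ / 2), ‖1 / (w - a) - 1 / (w - b)‖ₑ
        ≤ ∫⁻ w in ball a' (ρ / 2), ENNReal.ofReal 2 * ENNReal.ofReal (‖w - a'‖⁻¹) := by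
          apply lintegral_mono_ae
          refine (ae_restrict_iff' measurableSet_ball).mpr ?_
          filter_upwards [hne'] with w hw hwb
          rw [mem_ball, dist_eq_norm] at hwb
          rw [← ofReal_norm, hv w hw.1 hw.2, ← ENNReal.ofReal_mul (by norm_num)]
          apply ENNReal.ofReal_le_ofReal
          have h1 : 0 < ‖w - a'‖ := norm_pos_iff.mpr (sub_ne_zero.mpr hw.1)
          have h2 : ρ / 2 ≤ ‖w - b'‖ := by
            have h3 : ‖a' - b'‖ ≤ ‖w - a'‖ + ‖w - b'‖ := by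
              have h4 : a' - b' = (w - b') - (w - a') := by ring
              rw [h4]
              refine (norm_sub_le _ _).trans (le_of_eq (add_comm _ _))
            rw [hab'] at h3
            linarith
          have h6 : 0 < ‖w - b'‖ := by linarith
          rw [div_le_iff₀ (by positivity)]
          have h5 : 2 * ‖w - a'‖⁻¹ * (‖w - a'‖ * ‖w - b'‖) = 2 * ‖w - b'‖ := by
            field_simp
          rw [h5]
          linarith
      _ = ENNReal.ofReal 2 * ∫⁻ w in ball a' (ρ / 2), ENNReal.ofReal (‖w - a'‖⁻¹) := by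
          rw [lintegral_const_mul' _ _ ENNReal.ofReal_ne_top]
      _ = ENNReal.ofReal (2 * Real.pi * ρ) := by
          rw [Pool.Agent.T2H09.DH.int_inv a' (by linarith), ← ENNReal.ofReal_mul (by norm_num)]
          congr 1
          ring
  have hA := hball a b hval hρ hne
  have hB := hball b a (fun w h1 h2 => by rw [hval w h2 h1, mul_comm ‖w - a‖])
    (by rw [norm_sub_rev]; exact hρ) (hne.mono fun w hw => ⟨hw.2, hw.1⟩)
  obtain ⟨S, hS⟩ : ∃ S : Set ℂ, S = ball (0 : ℂ) R \ (ball a (ρ / 2) ∪ ball b (ρ / 2)) :=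
    ⟨_, rfl⟩
  have hSm : MeasurableSet S := by
    rw [hS]
    exact measurableSet_ball.diff (measurableSet_ball.union measurableSet_ball)
  have hpiece : ∀ a' : ℂ, ‖a'‖ ≤ R → S ⊆ ball a' (2 * R) \ ball a' (ρ / 2) →
      ∫⁻ w in S, ENNReal.ofReal ((‖w - a'‖ ^ 2)⁻¹) ≤
        ENNReal.ofReal (2 * Real.pi * Real.log (4 * R / ρ)) := by
    intro a' _ hsub
    refine (lintegral_mono_set hsub).trans ((ann_inv_sq a' (by linarith) (by linarith)).trans ?_)
    apply le_of_eq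
    congr 3
    field_simp
    ring
  have hsub1 : S ⊆ ball a (2 * R) \ ball a (ρ / 2) := by
    intro w hw
    rw [hS] at hw
    refine ⟨?_, fun h => hw.2 (Or.inl h)⟩
    have h1 := mem_ball_zero_iff.mp hw.1
    rw [mem_ball, dist_eq_norm]
    linarith [norm_sub_le w a]
  have hsub2 : S ⊆ ball b (2 * R) \ ball b (ρ / 2) := by
    intro w hw
    rw [hS] at hw
    refine ⟨?_, fun h => hw.2 (Or.inr h)⟩
    have h1 := mem_ball_zero_iff.mp hw.1
    rw [mem_ball, dist_eq_norm]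
    linarith [norm_sub_le w b]
  have hlog : 0 ≤ Real.log (4 * R / ρ) := by
    apply Real.log_nonneg
    rw [le_div_iff₀ hρ0]
    linarith
  have hC : ∫⁻ w in S, ‖1 / (w - a) - 1 / (w - b)‖ₑ ≤
      ENNReal.ofReal (2 * Real.pi * (ρ * Real.log (4 * R / ρ))) := by
    calc ∫⁻ w in S, ‖1 / (w - a) - 1 / (w - b)‖ₑ
        ≤ ∫⁻ w in S, ENNReal.ofReal (ρ / 2) * (ENNReal.ofReal ((‖w - a‖ ^ 2)⁻¹) +
            ENNReal.ofReal ((‖w - b‖ ^ 2)⁻¹)) := by
          apply lintegral_mono_ae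
          refine (ae_restrict_iff' hSm).mpr ?_
          filter_upwards [hne] with w hw hwS
          rw [← ofReal_norm, hval w hw.1 hw.2, ← ENNReal.ofReal_add (by positivity) (by positivity),
            ← ENNReal.ofReal_mul (by positivity)]
          apply ENNReal.ofReal_le_ofReal
          obtain ⟨x, hx⟩ : ∃ x : ℝ, ‖w - a‖ = x := ⟨_, rfl⟩
          obtain ⟨y, hy⟩ : ∃ y : ℝ, ‖w - b‖ = y := ⟨_, rfl⟩
          have hx0 : 0 < x := by rw [← hx]; exact norm_pos_iff.mpr (sub_ne_zero.mpr hw.1)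
          have hy0 : 0 < y := by rw [← hy]; exact norm_pos_iff.mpr (sub_ne_zero.mpr hw.2)
          rw [hx, hy]
          have h1 : ρ / 2 * ((x ^ 2)⁻¹ + (y ^ 2)⁻¹) - ρ / (x * y) = ρ / 2 * (x⁻¹ - y⁻¹) ^ 2 := by
            field_simp
            ring
          have h2 : 0 ≤ ρ / 2 * (x⁻¹ - y⁻¹) ^ 2 := by positivity
          linarith
      _ = ENNReal.ofReal (ρ / 2) * ((∫⁻ w in S, ENNReal.ofReal ((‖w - a‖ ^ 2)⁻¹)) +
            ∫⁻ w in S, ENNReal.ofReal ((‖w - b‖ ^ 2)⁻¹)) := by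
          rw [lintegral_const_mul' _ _ ENNReal.ofReal_ne_top, lintegral_add_left (by fun_prop)]
      _ ≤ ENNReal.ofReal (ρ / 2) * (ENNReal.ofReal (2 * Real.pi * Real.log (4 * R / ρ)) +
            ENNReal.ofReal (2 * Real.pi * Real.log (4 * R / ρ))) := by
          gcongr
          · exact hpiece a ha hsub1
          · exact hpiece b hb hsub2
      _ = _ := by
          rw [← ENNReal.ofReal_add (by positivity) (by positivity),
            ← ENNReal.ofReal_mul (by positivity)]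
          congr 1
          ring
  have hcover : ball (0 : ℂ) R ⊆ ball a (ρ / 2) ∪ (ball b (ρ / 2) ∪ S) := by
    intro w hw
    by_cases h1 : w ∈ ball a (ρ / 2)
    · exact Or.inl h1
    by_cases h2 : w ∈ ball b (ρ / 2)
    · exact Or.inr (Or.inl h2)
    right; right
    rw [hS]
    exact ⟨hw, fun h => h.elim h1 h2⟩
  refine (lintegral_mono_set hcover).trans ((lintegral_union_le _ _ _).trans ?_)
  refine (add_le_add hA ((lintegral_union_le _ _ _).trans (add_le_add hB hC))).trans ?_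
  rw [← ENNReal.ofReal_add (by positivity) (by positivity),
    ← ENNReal.ofReal_add (by positivity) (by positivity)]
  apply ENNReal.ofReal_le_ofReal
  apply le_of_eq
  ring


/-- The logarithm. -/
lemma log_form {R ρ : ℝ} (hR : 0 < R) (hρ : 0 < ρ) :
    2 + Real.log (4 * R / ρ) = (2 + Real.log (4 * R)) - Real.log ρ := by
  rw [Real.log_div (by positivity) hρ.ne']
  ring

/-- The modulus of continuity of the Cauchy transform. -/
theorem cau_log {μ : ℂ → ℂ} {K : Set ℂ} (h : Bel μ K) {R : ℝ} (hR : 0 < R) (hK : K ⊆ ball 0 R) :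
    ∃ C : ℝ, 0 ≤ C ∧ ∀ a b : ℂ, ‖a‖ ≤ R → ‖b‖ ≤ R →
      ‖cau μ a - cau μ b‖ ≤ C * (‖a - b‖ * ((2 + Real.log (4 * R)) - Real.log ‖a - b‖)) := by
  obtain ⟨B, hB0, hB⟩ := h.bdd
  refine ⟨B * (2 * Real.pi), by positivity, ?_⟩
  intro a b ha hb
  rcases eq_or_ne a b with hab | hab
  · rw [hab, sub_self, sub_self, norm_zero, zero_mul, mul_zero]
  have hρ : 0 < ‖a - b‖ := norm_pos_iff.mpr (sub_ne_zero.mpr hab)
  have hρ2 : ‖a - b‖ ≤ 2 * R := (norm_sub_le a b).trans (by linarith)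
  have e0 : cau μ a - cau μ b = ∫ w, μ w * (1 / (w - a) - 1 / (w - b)) := by
    unfold cau
    rw [← integral_sub (cau_integrable h a) (cau_integrable h b)]
    refine integral_congr_ae (Eventually.of_forall fun w => ?_)
    simp only [one_div]
    ring
  have e1 : ‖cau μ a - cau μ b‖ₑ ≤ ENNReal.ofReal B *
      ∫⁻ w in K, ‖1 / (w - a) - 1 / (w - b)‖ₑ := by
    rw [e0]
    exact (enorm_integral_le_lintegral_enorm _).trans (lint_mul_le h hB _)
  have e2 : ‖cau μ a - cau μ b‖ₑ ≤ ENNReal.ofReal (B * (2 * Real.pi * (‖a - b‖ *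
      (2 + Real.log (4 * R / ‖a - b‖))))) := by
    refine e1.trans ?_
    rw [ENNReal.ofReal_mul hB0]
    gcongr
    exact (lintegral_mono_set hK).trans (two_poles_gen hR ha hb hab)
  have hlog : 0 ≤ Real.log (4 * R / ‖a - b‖) := by
    apply Real.log_nonneg
    rw [le_div_iff₀ hρ]
    linarith
  rw [← ofReal_norm, ENNReal.ofReal_le_ofReal_iff (by positivity)] at e2
  refine e2.trans (le_of_eq ?_)
  rw [log_form hR hρ]
  ring

end Pool.Agent.Zk29.Nl
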