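import Pool.Agent.Zk29.Nl.N1

/-!
# The mass lemma with general error terms
-/

set_option autoImplicit false
open Set Filter Topology Metric MeasureTheory Polynomial
open scoped ENNReal

namespace Pool.Agent.Zk29.Nl

open Pool.Agent.Zk29.Rat Pool.Agent.H792R2.CE

variable {P Q : ℂ[X]} {U : Set ℂ} {d : ℕ}

/-- **The mass lemma for test differentials.** -/
theorem mass_tst2 (T : Trap P Q U) (D : Dat P Q d) : ∃ A : ℝ, 1 ≤ A ∧
    ∀ (ι : Type) [Fintype ι] [DecidableEq ι] (a α : ι → ℕ → ℂ) (J : ι → ℕ)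
      (ℓ : ι → ℂ[X] →ₗ[ℂ] ℂ) (g : ι → ℂ → ℂ) (e₁ : ι → ℝ),
    (∀ i, ∀ᵐ x : ℂ, push P Q (QQ (J i) (a i) (α i)) x - QQ (J i) (a i) (α i) x =
      ℓ i (SP P Q d x) + g i x) → (∀ i, Measurable (g i)) → (∀ i, 0 ≤ e₁ i) →
    (∀ i, ∫⁻ x in U, ‖g i x‖ₑ ≤ ENNReal.ofReal (e₁ i)) →
    (∀ i, ∀ j < J i, a i j ∈ KR P Q U ∨ a i j ∉ U) →
    ∀ (t : ι → ℂ) (i0 : ι), 1 ≤ J i0 → t i0 = 1 → α i0 0 = 1 → a i0 0 ∈ KR P Q U →
    ∀ W : ℝ, 1 ≤ W → ∑ i, ∑ j ∈ Finset.range (J i), ‖t i * α i j‖ ≤ Real.exp W →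
    ∀ (Λ : ℂ[X] →ₗ[ℂ] ℂ) (κ : ℝ), 0 < κ →
    (∀ᵐ x : ℂ, Λ (SP P Q d x) = ∑ i, t i * ℓ i (SP P Q d x)) →
    (∀ k ≤ 2 * d, ‖Λ (X ^ k)‖ ≤ κ) →
    ∀ δ : ℝ, 0 < δ → δ ≤ 1 →
    (∀ i, ∀ j < J i, (i ≠ i0 ∨ j ≠ 0) → δ ≤ ‖a i j - a i0 0‖) →
    ∀ M : ℕ, 1 ≤ M → A * W ^ A * dg (UR P Q U) (a i0 0) M ≤ δ →
      δ ≤ A * W ^ A * (M : ℝ) ^ 2 * (κ + ∑ i, ‖t i‖ * e₁ i) := by
  classical
  obtain ⟨A, hA1, hA⟩ := mass_r2 T D
  obtain ⟨h, L, c₀, hh0, hh1, hL0, hc₀, hc₁, hG, hdg⟩ := T.geo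
  refine ⟨A, hA1, ?_⟩
  intro ι _ _ a α J ℓ g e₁ hT hgm hee0 hee haK t i0 hJ0 ht0 hα0 ha0 W hW1 hW Λ κ hκ hΛ hΛk δ hδ hδ1 hsep M hM hx
  have hW0 : 0 < W := by linarith
  have hA0 : 0 < A := by linarith
  have hd0 := hG.pos ha0 M
  -- enumeration of the poles
  obtain ⟨s, hs⟩ : ∃ s : Finset (Σ _ : ι, ℕ),
    s = Finset.univ.sigma fun i => Finset.range (J i) := ⟨_, rfl⟩
  have hmems : ∀ p : (Σ _ : ι, ℕ), p ∈ s ↔ p.2 < J p.1 := by
    intro p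
    rw [hs, Finset.mem_sigma]
    simp
  have hi0s : (⟨i0, 0⟩ : Σ _ : ι, ℕ) ∈ s := (hmems _).2 (by simp; omega)
  obtain ⟨m, e, he0, hin, hne, hinj, himg⟩ := enum s hi0s
  obtain ⟨bb, hb⟩ : ∃ bb : ℕ → ℂ, bb = fun n => a (e n).1 (e n).2 := ⟨_, rfl⟩
  obtain ⟨γ, hγ⟩ : ∃ γ : ℕ → ℂ, γ = fun n => t (e n).1 * α (e n).1 (e n).2 := ⟨_, rfl⟩
  have hb0 : bb 0 = a i0 0 := by rw [hb]; simp only; rw [he0]
  have hsumC : ∀ F : (Σ _ : ι, ℕ) → ℂ, ∑ n ∈ Finset.range (m + 1), F (e n) =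
      ∑ i, ∑ j ∈ Finset.range (J i), F ⟨i, j⟩ := by
    intro F
    rw [← Finset.sum_image hinj, himg, hs, Finset.sum_sigma]
  have hsumR : ∀ F : (Σ _ : ι, ℕ) → ℝ, ∑ n ∈ Finset.range (m + 1), F (e n) =
      ∑ i, ∑ j ∈ Finset.range (J i), F ⟨i, j⟩ := by
    intro F
    rw [← Finset.sum_image hinj, himg, hs, Finset.sum_sigma]
  have hQQ : QQ (m + 1) bb γ = fun w => ∑ i, t i * QQ (J i) (a i) (α i) w := by
    ext w
    unfold QQ
    rw [hb, hγ]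
    have h1 := hsumC fun p => t p.1 * α p.1 p.2 / (w - a p.1 p.2)
    rw [h1]
    refine Finset.sum_congr rfl fun i _ => ?_
    rw [Finset.mul_sum]
    refine Finset.sum_congr rfl fun j _ => ?_
    ring
  have hγ0 : γ 0 = 1 := by
    rw [hγ]
    simp only
    rw [he0, ht0, hα0, one_mul]
  have key := hA m bb γ (fun n hn => by
      rw [hb]
      exact haK _ _ ((hmems _).1 (hin n hn))) (by rw [hb0]; exact ha0)
    hγ0 W hW1 (by
      have h1 : 1 + ∑ j ∈ Finset.range m, ‖γ (j + 1)‖ = ∑ j ∈ Finset.range (m + 1), ‖γ j‖ := by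
        rw [Finset.sum_range_succ', add_comm, hγ0, norm_one]
      rw [h1, hγ]
      have h2 := hsumR fun p => ‖t p.1 * α p.1 p.2‖
      rw [h2]
      exact hW) Λ κ (∑ i, ‖t i‖ * e₁ i)
    (fun x => ∑ i, ‖t i * g i x‖ₑ) hκ
    (Finset.sum_nonneg fun i _ => mul_nonneg (norm_nonneg _) (hee0 i)) hΛk (by
      have h1 : ∀ᵐ x : ℂ, ∀ i, push P Q (QQ (J i) (a i) (α i)) x - QQ (J i) (a i) (α i) x =
          ℓ i (SP P Q d x) + g i x := by
        rw [ae_all_iff]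
        exact hT
      filter_upwards [h1, hΛ] with x hx hΛx _
      rw [hQQ, push_lin, hΛx, ← Finset.sum_sub_distrib, ← Finset.sum_sub_distrib]
      refine (enorm_sum_le _ _).trans (Finset.sum_le_sum fun i _ => ?_)
      have h3 : t i * push P Q (QQ (J i) (a i) (α i)) x - t i * QQ (J i) (a i) (α i) x -
          t i * ℓ i (SP P Q d x) = t i * g i x := by
        linear_combination t i * hx i
      rw [h3]) (by
      rw [lintegral_finsetSum' _ fun i _ => by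
        have : Measurable fun x : ℂ => ‖t i * g i x‖ₑ := ((hgm i).const_mul _).enorm
        exact this.aemeasurable]
      rw [ENNReal.ofReal_sum_of_nonneg fun i _ => mul_nonneg (norm_nonneg _) (hee0 i)]
      refine Finset.sum_le_sum fun i _ => ?_
      simp_rw [enorm_mul]
      rw [lintegral_const_mul' _ _ enorm_ne_top, ENNReal.ofReal_mul (norm_nonneg _), ofReal_norm]
      gcongr
      exact hee i) δ hδ hδ1 (fun n hn => by
      rw [hb0, hb]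
      have h1 := (hmems _).1 (hin (n + 1) (by omega))
      refine hsep _ _ h1 ?_
      by_contra hcon
      push Not at hcon
      apply hne n hn
      rcases hen : e (n + 1) with ⟨i, j⟩
      rw [hen] at hcon
      simp only at hcon
      rw [hcon.1, hcon.2]) M hM (by
      rw [hb0]
      exact hx)
  exact key

end Pool.Agent.Zk29.Nl
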