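import Pool.Agent.Zk29.Nl.N2
import Pool.Agent.Zk29.Rat.Dim2

/-!
# The functionals near the critical points
-/

set_option autoImplicit false
open Set Filter Topology Metric MeasureTheory Polynomial
open scoped ENNReal

namespace Pool.Agent.Zk29.Nl

open Pool.Agent.Zk29.Rat Pool.Agent.H792R2.CE

variable {P : ℂ[X]} {d : ℕ} {R : ℝ}

/-- The quotient of `S - S(c)` by the derivative is bounded on the filled Julia set. -/
theorem ratio_bdd (hP : 1 ≤ P.natDegree) {K : Set ℂ} (hK : IsCompact K) {c : ℂ}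
    (hc : (derivative P).eval c = 0)
    (hone : ∀ c', (derivative P).eval c' = 0 → c' ∈ K → P.eval c' = P.eval c) {S : ℂ[X]}
    (hS : S ∈ VV P d) : ∃ C : ℝ, ∀ z ∈ K, (derivative P).eval z ≠ 0 →
      ‖(S.eval z - S.eval c) / (derivative P).eval z‖ ≤ C := by
  have hN0 : derivative P ≠ 0 := by
    rw [derivative_ne_zero]
    omega
  refine hK.induction_on (p := fun s => ∃ C : ℝ, ∀ z ∈ s, (derivative P).eval z ≠ 0 →
    ‖(S.eval z - S.eval c) / (derivative P).eval z‖ ≤ C) ?_ ?_ ?_ ?_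
  · exact ⟨0, fun z hz => absurd hz (Set.notMem_empty z)⟩
  · rintro s t hst ⟨C, hC⟩
    exact ⟨C, fun z hz => hC z (hst hz)⟩
  · rintro s t ⟨C, hC⟩ ⟨C', hC'⟩
    refine ⟨max C C', fun z hz h0 => ?_⟩
    rcases hz with hz | hz
    · exact (hC z hz h0).trans (le_max_left _ _)
    · exact (hC' z hz h0).trans (le_max_right _ _)
  · intro z₀ hz₀
    obtain ⟨m, hm⟩ : ∃ m, m = rootMultiplicity z₀ (derivative P) := ⟨_, rfl⟩
    obtain ⟨g, hg, hg0⟩ : ∃ g : ℂ[X], derivative P = (X - C z₀) ^ m * g ∧ g.eval z₀ ≠ 0 := by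
      obtain ⟨g, hg1, hg2⟩ := exists_eq_pow_rootMultiplicity_mul_and_not_dvd _ hN0 z₀
      rw [← hm] at hg1
      refine ⟨g, hg1, fun h0 => hg2 ?_⟩
      rwa [dvd_iff_isRoot]
    obtain ⟨h, hh⟩ : ∃ h : ℂ[X], S - C (S.eval c) = (X - C z₀) ^ m * h := by
      rw [mem_VV] at hS
      by_cases h0 : (derivative P).eval z₀ = 0
      · have h1 := hS.2.2 z₀ c h0 hc (hone z₀ h0 hz₀)
        obtain ⟨h, hh⟩ := hS.2.1 z₀
        rw [← hm, h1] at hh
        exact ⟨h, hh⟩
      · have h1 : m = 0 := by rw [hm]; exact rootMultiplicity_eq_zero h0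
        exact ⟨S - C (S.eval c), by rw [h1, pow_zero, one_mul]⟩
    have hcont : ContinuousAt (fun z => ‖h.eval z / g.eval z‖) z₀ := by
      refine ContinuousAt.norm (ContinuousAt.div ?_ ?_ hg0)
      · exact h.continuous.continuousAt
      · exact g.continuous.continuousAt
    have hev : ∀ᶠ z in 𝓝 z₀, ‖h.eval z / g.eval z‖ < ‖h.eval z₀ / g.eval z₀‖ + 1 :=
      hcont.eventually_lt_const (by linarith)
    refine ⟨_, mem_nhdsWithin_of_mem_nhds hev, ‖h.eval z₀ / g.eval z₀‖ + 1, fun z hz h0 => ?_⟩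
    have h1 : S.eval z - S.eval c = (z - z₀) ^ m * h.eval z := by
      have := congrArg (Polynomial.eval z) hh
      simpa using this
    have h2 : (derivative P).eval z = (z - z₀) ^ m * g.eval z := by
      have := congrArg (Polynomial.eval z) hg
      simpa using this
    rw [h2] at h0
    rw [h1, h2, mul_div_mul_left _ _ (left_ne_zero_of_mul h0)]
    exact hz.le

/-- The linear functionals on the space of the infinitesimal deformations. -/
theorem factor2 (hP : P.natDegree = d) (hd : 2 ≤ d) {cc : Fin (cvs P).card → ℂ}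
    (hcc1 : ∀ u, (derivative P).eval (cc u) = 0)
    (hcc2 : ∀ c, (derivative P).eval c = 0 → ∃ u, P.eval c = P.eval (cc u)) :
    ∃ (r : (ℂ[X] →ₗ[ℂ] ℂ) →ₗ[ℂ] (Fin (cvs P).card → ℂ)) (p : Fin (cvs P).card → ℂ[X]),
      (∀ u, p u ∈ VV P d) ∧ (∀ ℓ u, r ℓ u = ℓ (p u)) ∧
      ∀ ℓ, ∀ S ∈ VV P d, ℓ S = ∑ u, r ℓ u * S.eval (cc u) := by
  classical
  obtain ⟨ev, hev⟩ : ∃ ev : ℂ[X] →ₗ[ℂ] (Fin (cvs P).card → ℂ), ∀ S u, ev S u = S.eval (cc u) :=
    ⟨LinearMap.pi fun u => leval (cc u), fun S u => rfl⟩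
  have hker : LinearMap.ker (ev.domRestrict (VV P d)) = ⊥ := by
    rw [LinearMap.ker_eq_bot']
    rintro ⟨S, hS⟩ h0
    rw [LinearMap.domRestrict_apply] at h0
    have : S = 0 := VV_inj hP hd hcc1 hcc2 hS fun u => by
      rw [← hev S u, h0]
      rfl
    exact Subtype.ext this
  obtain ⟨s, hs⟩ := LinearMap.exists_leftInverse_of_injective _ hker
  have hs' : ∀ S (hS : S ∈ VV P d), ((s (ev S) : VV P d) : ℂ[X]) = S := by
    intro S hS
    have := congrArg (fun f : (VV P d) →ₗ[ℂ] (VV P d) => ((f ⟨S, hS⟩ : VV P d) : ℂ[X])) hs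
    simpa using this
  refine ⟨{ toFun := fun ℓ u => ℓ ((s (Pi.single u 1) : VV P d) : ℂ[X])
            map_add' := fun ℓ ℓ' => by ext u; simp
            map_smul' := fun a ℓ => by ext u; simp },
    fun u => ((s (Pi.single u 1) : VV P d) : ℂ[X]), fun u => Subtype.coe_prop _,
    fun ℓ u => rfl, ?_⟩
  intro ℓ S hS
  conv_lhs => rw [← hs' S hS]
  have h1 : ev S = ∑ u, (ev S u) • (Pi.single u (1 : ℂ) : Fin (cvs P).card → ℂ) := by
    conv_lhs => rw [← Finset.univ_sum_single (ev S)]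
    refine Finset.sum_congr rfl fun u _ => ?_
    rw [← Pi.single_smul, smul_eq_mul, mul_one]
  rw [h1, map_sum, Submodule.coe_sum, map_sum]
  refine Finset.sum_congr rfl fun u _ => ?_
  rw [map_smul, Submodule.coe_smul, map_smul, smul_eq_mul, hev, mul_comm]
  rfl

/-- The functional of the critical orbit closed up at time `J`. -/
noncomputable def ellC (P : ℂ[X]) (c : ℂ) (J : ℕ) : ℂ[X] →ₗ[ℂ] ℂ :=
  ell P 1 c (orb P (P.eval c)) (dl P (P.eval c)) J - dl P (P.eval c) J • leval c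

/-- The bound for the closed functional. -/
lemma ellC_bound {c : ℂ} {J' : ℕ} (O : Orb P 1 c (orb P (P.eval c)) (dl P (P.eval c)) (J' + 1))
    {p : ℂ[X]} {K : Set ℂ} {Cq : ℝ} (hp : ∀ z ∈ K, ‖p.eval z‖ ≤ Cq) (hcK : c ∈ K)
    (ha : ∀ j < J' + 1, orb P (P.eval c) j ∈ K)
    (hr : ∀ z ∈ K, (derivative P).eval z ≠ 0 →
      ‖(p.eval z - p.eval c) / (derivative P).eval z‖ ≤ Cq) :
    ‖ellC P c (J' + 1) p‖ ≤ 2 * Cq * ∑ j ∈ Finset.range (J' + 1), ‖dl P (P.eval c) j‖ := by
  have hCq : 0 ≤ Cq := (norm_nonneg _).trans (hp c hcK)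
  have hJn : (derivative P).eval (orb P (P.eval c) J') ≠ 0 := by
    have := O.na J' (by omega)
    rwa [wr_one] at this
  have e1 : ellC P c (J' + 1) p = p.eval c + (∑ j ∈ Finset.range J',
      dl P (P.eval c) j / (derivative P).eval (orb P (P.eval c) j) *
        p.eval (orb P (P.eval c) j)) +
      dl P (P.eval c) J' * ((p.eval (orb P (P.eval c) J') - p.eval c) /
        (derivative P).eval (orb P (P.eval c) J')) := by
    unfold ellC
    rw [LinearMap.sub_apply, LinearMap.smul_apply, leval_apply, smul_eq_mul, ell_apply,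
      Finset.sum_range_succ, eval_one, one_pow, div_one, dl_succ]
    simp only [wr_one]
    field_simp
    ring
  rw [e1]
  have h2 : ‖∑ j ∈ Finset.range J', dl P (P.eval c) j /
      (derivative P).eval (orb P (P.eval c) j) * p.eval (orb P (P.eval c) j)‖ ≤
      Cq * ∑ j ∈ Finset.range J', ‖dl P (P.eval c) (j + 1)‖ := by
    rw [Finset.mul_sum]
    refine (norm_sum_le _ _).trans (Finset.sum_le_sum fun j hj => ?_)
    rw [Finset.mem_range] at hj
    have h1 : dl P (P.eval c) j / (derivative P).eval (orb P (P.eval c) j) =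
        dl P (P.eval c) (j + 1) := by
      rw [dl_succ]
      ring
    rw [h1, norm_mul, mul_comm]
    have h2 := hp _ (ha j (by omega))
    gcongr
  have h3 : ‖dl P (P.eval c) J' * ((p.eval (orb P (P.eval c) J') - p.eval c) /
        (derivative P).eval (orb P (P.eval c) J'))‖ ≤ Cq * ‖dl P (P.eval c) J'‖ := by
    rw [norm_mul, mul_comm]
    have := hr _ (ha J' (by omega)) hJn
    gcongr
  have h4 := hp c hcK
  have h5 := Finset.sum_range_succ' (fun j => ‖dl P (P.eval c) j‖) J'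
  simp only [dl_zero, norm_one] at h5
  have h6 : ‖dl P (P.eval c) J'‖ ≤ ∑ j ∈ Finset.range (J' + 1), ‖dl P (P.eval c) j‖ :=
    Finset.single_le_sum (f := fun j => ‖dl P (P.eval c) j‖) (fun _ _ => norm_nonneg _)
      (Finset.mem_range.2 (by omega))
  calc _ ≤ Cq + Cq * ∑ j ∈ Finset.range J', ‖dl P (P.eval c) (j + 1)‖ +
        Cq * ‖dl P (P.eval c) J'‖ := by
        refine (norm_add_le _ _).trans (add_le_add ((norm_add_le _ _).trans (add_le_add h4 h2)) h3)
    _ = Cq * (∑ j ∈ Finset.range J', ‖dl P (P.eval c) (j + 1)‖ + 1) +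
        Cq * ‖dl P (P.eval c) J'‖ := by ring
    _ = Cq * (∑ j ∈ Finset.range (J' + 1), ‖dl P (P.eval c) j‖) +
        Cq * ‖dl P (P.eval c) J'‖ := by rw [h5]
    _ ≤ Cq * (∑ j ∈ Finset.range (J' + 1), ‖dl P (P.eval c) j‖) +
        Cq * (∑ j ∈ Finset.range (J' + 1), ‖dl P (P.eval c) j‖) := by gcongr
    _ = _ := by ring

end Pool.Agent.Zk29.Nl
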