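import Pool.Agent.Zk29.Nl.N3

/-!
# The closing inequality for the infinitesimal deformations of polynomials
-/

set_option autoImplicit false
open Set Filter Topology Metric MeasureTheory Polynomial
open scoped ENNReal

namespace Pool.Agent.Zk29.Nl

open Pool.Agent.Zk29.Rat Pool.Agent.H792R2.CE

variable {P : ℂ[X]} {d : ℕ} {R : ℝ}

/-- The closed test differential. -/
theorem ellC_push (D : Dat P 1 d) {c : ℂ} {J : ℕ}
    (O : Orb P 1 c (orb P (P.eval c)) (dl P (P.eval c)) J) :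
    ∀ᵐ x : ℂ, push P 1 (QQ J (orb P (P.eval c)) (dl P (P.eval c))) x -
      QQ J (orb P (P.eval c)) (dl P (P.eval c)) x = ellC P c J (SP P 1 d x) +
        dl P (P.eval c) J * (1 / (x - orb P (P.eval c) J) - 1 / (x - P.eval c)) := by
  have h1 : ∀ᵐ x : ℂ, x ≠ P.eval c := by
    rw [ae_iff]
    simp
  filter_upwards [(O.tst D).psh, gen_ae D, h1] with x hx hg hxv
  rw [hx]
  have h4 : x ≠ rf P 1 c := by rw [rf_one]; exact hxv
  have h2 := SP_crit D hg O.qc O.c0 h4
  rw [rf_one, eval_one, one_pow] at h2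
  unfold ellC
  rw [LinearMap.sub_apply, LinearMap.smul_apply, leval_apply, smul_eq_mul, h2]
  ring

theorem core_nl (hd : 2 ≤ d) (hP : P.natDegree = d) (hE : Esc P R) {c : ℂ}
    (hc : (derivative P).eval c = 0) (hK : P.eval c ∈ KR P 1 (ball 0 R))
    (hone : ∀ v ∈ cvs P, v ∈ KR P 1 (ball 0 R) → v = P.eval c) {μ : ℂ → ℂ}
    (hμ : InvK P 1 (ball 0 R) μ)
    (hnz : ¬ ∀ z, (derivative P).eval z * cau μ z = cau μ (P.eval z)) {Cμ : ℝ} (hCμ : 0 ≤ Cμ) :
    ∃ A : ℝ, 1 ≤ A ∧ ∀ (J' M : ℕ) (y : ℂ) (δ W ω : ℝ),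
      (∀ j < J' + 1, (derivative P).eval (orb P (P.eval c) j) ≠ 0) → 1 ≤ M →
      y ∉ UR P 1 (ball 0 R) M → 0 < δ → δ ≤ 1 →
      (∀ i, 1 ≤ i → i < J' + 1 → δ ≤ ‖orb P (P.eval c) i - P.eval c‖) → 1 ≤ W →
      ∑ i ∈ Finset.range (J' + 1), ‖dl P (P.eval c) i‖ ≤ Real.exp W →
      A * W ^ A * ‖y - P.eval c‖ ≤ δ → 0 ≤ ω →
      ∫⁻ x in ball (0 : ℂ) R, ‖1 / (x - orb P (P.eval c) (J' + 1)) - 1 / (x - P.eval c)‖ₑ ≤
        ENNReal.ofReal ω →
      ‖cau μ (orb P (P.eval c) (J' + 1)) - cau μ (P.eval c)‖ ≤ Cμ * ω →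
      δ ≤ A * W ^ A * (M : ℝ) ^ 2 * (‖dl P (P.eval c) (J' + 1)‖ * ω) := by
  classical
  obtain ⟨v, hv⟩ : ∃ v, v = P.eval c := ⟨_, rfl⟩
  rw [← hv] at hK hone ⊢
  have T := hE.trap
  have D : Dat P 1 d := Dat.poly (by omega) hP
  have hP1 : 1 ≤ P.natDegree := by omega
  obtain ⟨cc, hcc1, hcc2⟩ := crit_enum hP1
  obtain ⟨r, p, hpV, hrp, hr⟩ := factor2 hP hd hcc1 hcc2
  -- the escaping critical values
  obtain ⟨E', hE'⟩ : ∃ E', ∀ v, v ∈ E' ↔ v ∈ cvs P ∧ v ∉ KR P 1 (ball 0 R) :=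
    ⟨(cvs P).filter (fun v => v ∉ KR P 1 (ball 0 R)), fun v => Finset.mem_filter⟩
  obtain ⟨e, he⟩ : ∃ e, e = E'.card := ⟨_, rfl⟩
  have hcard : (cvs P).card ≤ 1 + e := by
    have h1 : cvs P ⊆ {v} ∪ E' := by
      intro w hw
      rw [Finset.mem_union, Finset.mem_singleton]
      by_cases h2 : w ∈ KR P 1 (ball 0 R)
      · exact Or.inl (hone w hw h2)
      · exact Or.inr ((hE' w).2 ⟨hw, h2⟩)
    have h2 := (Finset.card_le_card h1).trans (Finset.card_union_le _ _)
    rwa [Finset.card_singleton, ← he] at h2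
  obtain ⟨ce, hce, hce', hinj⟩ : ∃ ce : Fin e → ℂ, (∀ i, (derivative P).eval (ce i) = 0) ∧
      (∀ i, P.eval (ce i) ∉ KR P 1 (ball 0 R)) ∧ Function.Injective fun i => P.eval (ce i) := by
    subst he
    have hw : ∀ i : Fin E'.card, ∃ ce, (derivative P).eval ce = 0 ∧
        P.eval ce = (E'.equivFin.symm i : ℂ) := fun i =>
      (mem_cvs hP1).1 ((hE' _).1 (E'.equivFin.symm i).2).1
    choose ce h1 h2 using hw
    refine ⟨ce, h1, fun i => ?_, fun i j hij => ?_⟩
    · rw [h2]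
      exact ((hE' _).1 (E'.equivFin.symm i).2).2
    · simp only [h2] at hij
      exact E'.equivFin.symm.injective (Subtype.ext hij)
  obtain ⟨k₀, hk₀⟩ : ∃ k₀, ∀ i, R ≤ ‖orb P (P.eval (ce i)) k₀‖ := by
    have h1 : ∀ i, ∃ k, R ≤ ‖orb P (P.eval (ce i)) k‖ := by
      intro i
      have h2 := hce' i
      rw [mem_KR] at h2
      push Not at h2
      exact h2
    choose k hk using h1
    refine ⟨∑ i, k i, fun i => far_add hE (hk i) ?_⟩
    exact Finset.single_le_sum (f := k) (fun _ _ => Nat.zero_le _) (Finset.mem_univ i)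
  have T' := T.ur k₀
  obtain ⟨A, hA1, hA⟩ := mass_tst2 T' D
  obtain ⟨Cp, hCp0, hCp⟩ := lintegral_pole T'
  obtain ⟨h, L, c₀, hh0, hh1, hL0, hc₀, hc₁, hG, hdg⟩ := T'.geo
  have hpole : ∀ i j, orb P (P.eval (ce i)) j ∉ UR P 1 (ball 0 R) k₀ := by
    intro i j hmem
    have h1 := mem_UR.1 hmem
    have h2 := far_add hE (hk₀ i) (show k₀ ≤ k₀ + j by omega)
    rw [orb_add] at h2
    exact absurd h1 (not_lt.2 h2)
  -- `c` lies in the filled Julia set
  have hKmem : ∀ z, P.eval z ∈ KR P 1 (ball 0 R) → z ∈ KR P 1 (ball 0 R) := by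
    intro z hz
    have h1 : z ∈ rf P 1 ⁻¹' KR P 1 (ball 0 R) := by
      rw [mem_preimage, rf_one]
      exact hz
    rcases preim_KR T h1 with h2 | h2
    · exact h2
    · exact absurd h2 (by simp)
  have hcK : c ∈ KR P 1 (ball 0 R) := hKmem c (by rw [← hv]; exact hK)
  obtain ⟨Cq, hCq1, hCq, hCr⟩ : ∃ Cq : ℝ, 1 ≤ Cq ∧ (∀ u, ∀ z ∈ KR P 1 (ball 0 R),
      ‖(p u).eval z‖ ≤ Cq) ∧ ∀ u, ∀ z ∈ KR P 1 (ball 0 R), (derivative P).eval z ≠ 0 →
        ‖((p u).eval z - (p u).eval c) / (derivative P).eval z‖ ≤ Cq := by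
    have h1 : ∀ u, ∃ C, ∀ z ∈ KR P 1 (ball 0 R), ‖(p u).eval z‖ ≤ C := fun u =>
      T.kcpt.exists_bound_of_continuousOn (p u).continuous.continuousOn
    have h1' : ∀ u, ∃ C, ∀ z ∈ KR P 1 (ball 0 R), (derivative P).eval z ≠ 0 →
        ‖((p u).eval z - (p u).eval c) / (derivative P).eval z‖ ≤ C := fun u =>
      ratio_bdd hP1 T.kcpt hc (fun c' hc' hcK' => by
        rw [← hv]
        apply hone _ ((mem_cvs hP1).2 ⟨c', hc', rfl⟩)
        have := (KR_fwd hcK').2
        rwa [rf_one] at this) (hpV u)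
    choose C hC using h1
    choose C₂ hC₂ using h1'
    have h5 : 0 ≤ ∑ u, |C u| := by positivity
    have h6 : 0 ≤ ∑ u, |C₂ u| := by positivity
    refine ⟨1 + (∑ u, |C u|) + ∑ u, |C₂ u|, by linarith, ?_, ?_⟩
    · intro u z hz
      have h2 := hC u z hz
      have h3 := Finset.single_le_sum (f := fun u => |C u|) (fun _ _ => abs_nonneg _)
        (Finset.mem_univ u)
      have h4 := le_abs_self (C u)
      linarith
    · intro u z hz h0
      have h2 := hC₂ u z hz h0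
      have h3 := Finset.single_le_sum (f := fun u => |C₂ u|) (fun _ _ => abs_nonneg _)
        (Finset.mem_univ u)
      have h4 := le_abs_self (C₂ u)
      linarith
  obtain ⟨C', hC'1, hC'⟩ := lam_bound (d := d) cc
  obtain ⟨c₁, η₁, J₁, hc₁0, hη₁, hind⟩ := esc_indep hE D hinj hk₀
  obtain ⟨CE, hCE⟩ : ∃ CE : ℝ, CE = ∑ i, ∑' j, ‖dl P (P.eval (ce i)) j‖ := ⟨_, rfl⟩
  have hCE0 : 0 ≤ CE := by
    rw [hCE]
    exact Finset.sum_nonneg fun i _ => tsum_nonneg fun j => norm_nonneg _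
  -- the infinitesimal deformation
  obtain ⟨S, hSV, hSΛ, hSe⟩ : ∃ S : ℂ[X], S ∈ VV P d ∧
      (∀ Λ : ℂ[X] →ₗ[ℂ] ℂ, Λ S = ∫ x, μ x * Λ (SP P 1 d x)) ∧
      ∀ z, S.eval z = (derivative P).eval z * cau μ z - cau μ (P.eval z) := by
    obtain ⟨S, -, h2, h3⟩ := Smu_exists T D hμ
    refine ⟨S, Smu_mem D hP hd fun Λ => (h2 Λ).2, fun Λ => (h2 Λ).2, fun z => ?_⟩
    have := h3 z
    rw [wr_one, rf_one, eval_one, one_pow, one_mul] at this
    exact this
  obtain ⟨Cm, hCm0, hCm⟩ : ∃ Cm : ℝ, 0 ≤ Cm ∧ ∀ a, ‖cau μ a‖ ≤ Cm := cau_bdd (hμ.bel T)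
  have hx0 : (fun u => S.eval (cc u)) ≠ 0 := by
    intro h0
    apply hnz
    have h1 : S = 0 := VV_inj hP hd hcc1 hcc2 hSV fun u => congrFun h0 u
    intro z
    have h2 := hSe z
    rw [h1, eval_zero] at h2
    exact (sub_eq_zero.1 h2.symm)
  obtain ⟨ε₀, hε₀, hlin⟩ : ∃ ε₀ : ℝ, 0 < ε₀ ∧ ∀ (β : Fin e ⊕ Fin 1 → Fin (cvs P).card → ℂ)
      (κ : ℝ), 0 < κ → (∀ t : Fin e ⊕ Fin 1 → ℂ, κ * ‖t‖ ≤ ‖∑ i, t i • β i‖) →
      ∃ i, ε₀ * κ < ‖∑ u, β i u * S.eval (cc u)‖ := by
    by_contra hcon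
    push Not at hcon
    obtain ⟨y, hy0, hy⟩ := lin_alg2 (ι := Fin e ⊕ Fin 1) (n := 1) (m := (cvs P).card)
      (by
        rw [Fintype.card_sum, Fintype.card_fin, Fintype.card_fin]
        omega) (fun _ u => S.eval (cc u)) (fun ε hε => by
        obtain ⟨β, κ, h1, h2, h3⟩ := hcon ε hε
        exact ⟨β, κ, h1, h2, fun i _ => h3 i⟩)
    rw [Fin.sum_univ_one] at hy
    rcases smul_eq_zero.1 hy with h1 | h1
    · apply hy0
      ext i
      have : i = 0 := Subsingleton.elim _ _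
      rw [this]
      exact h1
    · exact hx0 h1
  -- the constants
  obtain ⟨C4, hC4⟩ : ∃ C4 : ℝ, C4 = 6 * Cq * C' / c₁ := ⟨_, rfl⟩
  have hC40 : 0 < C4 := by rw [hC4]; positivity
  obtain ⟨C6, hC6⟩ : ∃ C6 : ℝ, C6 = C4 * CE := ⟨_, rfl⟩
  have hC60 : 0 ≤ C6 := by rw [hC6]; positivity
  obtain ⟨CA, hCA⟩ : ∃ CA : ℝ, CA = (1 + C6) ^ A := ⟨_, rfl⟩
  have hCA1 : 1 ≤ CA := by
    rw [hCA]
    exact Real.one_le_rpow (by linarith) (by linarith)
  obtain ⟨Ke, hKe⟩ : ∃ Ke : ℝ, Ke = 4 * A * C' * CA / c₀ := ⟨_, rfl⟩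
  have hKe1 : 1 ≤ Ke := by
    rw [hKe, le_div_iff₀ hc₀]
    have h1 : 1 ≤ A * C' := one_le_mul_of_one_le_of_one_le hA1 hC'1
    have h2 : 1 ≤ A * C' * CA := one_le_mul_of_one_le_of_one_le h1 hCA1
    linarith
  obtain ⟨B, hB⟩ : ∃ B : ℝ, B = A * CA / c₀ + Ke + Ke * (Cμ / ε₀) + 1 := ⟨_, rfl⟩
  have hB0 : 0 ≤ Ke * (Cμ / ε₀) := by positivity
  have hB0' : 0 ≤ A * CA / c₀ := by positivity
  have hBA' : A * CA / c₀ ≤ B := by rw [hB]; linarith
  have hBA : A ≤ B := by
    refine le_trans ?_ hBA'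
    rw [le_div_iff₀ hc₀]
    have h1 : A ≤ A * CA := le_mul_of_one_le_right (by linarith) hCA1
    nlinarith
  have hBK : Ke ≤ B := by rw [hB]; linarith
  have hBC : Ke * (Cμ / ε₀) < B := by rw [hB]; linarith
  have hB1 : 1 ≤ B := hA1.trans hBA
  refine ⟨B, hB1, ?_⟩
  intro J' M y δ W ω hJne hM hyM hδ hδ1 hsep hW1 hWs hyv hω hω1 hω2
  by_contra hcon
  push Not at hcon
  have hW0 : 0 < W := by linarith
  have hM1 : (1 : ℝ) ≤ M := by exact_mod_cast hM
  have hWA0 : 0 < W ^ A := Real.rpow_pos_of_pos hW0 A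
  have hWB0 : 0 < W ^ B := Real.rpow_pos_of_pos hW0 B
  have hWAB : W ^ A ≤ W ^ B := Real.rpow_le_rpow_of_exponent_le hW1 hBA
  have hWB1 : 1 ≤ W ^ B := Real.one_le_rpow hW1 (by linarith)
  obtain ⟨aJ, haJ⟩ : ∃ aJ, aJ = ‖dl P v (J' + 1)‖ := ⟨_, rfl⟩
  have haJ0 : 0 ≤ aJ := by rw [haJ]; exact norm_nonneg _
  rw [← haJ] at hcon
  obtain ⟨κ, hκ⟩ : ∃ κ : ℝ, κ = δ / (Ke * W ^ A * (M : ℝ) ^ 2) := ⟨_, rfl⟩
  have hκ0 : 0 < κ := by rw [hκ]; positivity
  have hκ1 : κ ≤ 1 := by
    rw [hκ, div_le_one (by positivity)]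
    have h1 : 1 ≤ W ^ A := Real.one_le_rpow hW1 (by linarith)
    have h2 : 1 ≤ Ke * W ^ A * (M : ℝ) ^ 2 :=
      one_le_mul_of_one_le_of_one_le (one_le_mul_of_one_le_of_one_le hKe1 h1) (one_le_pow₀ hM1)
    linarith
  have hsmall : aJ * ω ≤ κ := by
    rw [hκ, le_div_iff₀ (by positivity)]
    refine le_trans ?_ hcon.le
    calc aJ * ω * (Ke * W ^ A * (M : ℝ) ^ 2) = Ke * W ^ A * (M : ℝ) ^ 2 * (aJ * ω) := by ring
      _ ≤ B * W ^ B * (M : ℝ) ^ 2 * (aJ * ω) := by gcongr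
  -- the critical orbit
  have hO : Orb P 1 c (orb P v) (dl P v) (J' + 1) := by
    refine ⟨by rw [wr_one]; exact hc, by simp, by rw [rf_one, ← hv]; rfl, fun j _ => ?_,
      dl_zero _, fun j _ => ?_, fun j _ => by simp, fun j hj => by
        rw [wr_one]
        exact hJne j hj⟩
    · rw [rf_one]
      exact orb_succ _ _
    · rw [dl_succ, wr_one, eval_one, one_pow]
  have hO' : Orb P 1 c (orb P (P.eval c)) (dl P (P.eval c)) (J' + 1) := by rw [← hv]; exact hO
  obtain ⟨ℓg, hℓg⟩ : ∃ ℓg : ℂ[X] →ₗ[ℂ] ℂ, ℓg = ellC P c (J' + 1) := ⟨_, rfl⟩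
  have htg : ∀ᵐ x : ℂ, push P 1 (QQ (J' + 1) (orb P v) (dl P v)) x -
      QQ (J' + 1) (orb P v) (dl P v) x = ℓg (SP P 1 d x) +
        dl P v (J' + 1) * (1 / (x - orb P v (J' + 1)) - 1 / (x - v)) := by
    have := ellC_push D hO'
    rw [hℓg, hv]
    exact this
  have hℓS : ‖ℓg S‖ ≤ aJ * (Cμ * ω) := by
    have h1 := (hO.tst D).smu T D hμ hSΛ
    have h2 : ℓg S = -(dl P v (J' + 1) * (cau μ (orb P v (J' + 1)) - cau μ v)) := by
      rw [hℓg]
      unfold ellC
      rw [← hv, LinearMap.sub_apply, LinearMap.smul_apply, leval_apply, smul_eq_mul, h1, hSe c, hc,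
        ← hv]
      ring
    rw [h2, norm_neg, norm_mul, ← haJ]
    gcongr
  have hW3 : ‖r ℓg‖ ≤ 2 * Cq * Real.exp W := by
    rw [pi_norm_le_iff_of_nonneg (by positivity)]
    intro u
    rw [hrp, hℓg]
    refine (ellC_bound hO' (hCq u) hcK (fun j _ => orb_KR (by rw [← hv]; exact hK) j)
      (hCr u)).trans ?_
    rw [← hv]
    gcongr
  -- the escaping orbits
  obtain ⟨lam, hlam⟩ : ∃ lam : ℝ, lam = C4 * Real.exp W := ⟨_, rfl⟩
  have hlam0 : 0 < lam := by rw [hlam]; positivity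
  obtain ⟨η, hη0, hη1, hη2, hη3⟩ : ∃ η : ℝ, 0 < η ∧ η ≤ η₁ ∧ lam * η * Cm ≤ ε₀ * κ ∧
      (e : ℝ) * (lam * (Cp * η)) ≤ C' * κ := by
    refine ⟨min η₁ (min (ε₀ * κ / (lam * (Cm + 1))) (κ / (lam * ((Cp + 1) * (e + 1))))),
      by positivity, min_le_left _ _, ?_, ?_⟩
    · calc lam * min η₁ (min (ε₀ * κ / (lam * (Cm + 1))) (κ / (lam * ((Cp + 1) * (e + 1))))) * Cm
          ≤ lam * (ε₀ * κ / (lam * (Cm + 1))) * (Cm + 1) := by
            gcongr
            · exact (min_le_right _ _).trans (min_le_left _ _)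
            · linarith
        _ = ε₀ * κ := by field_simp
    · calc (e : ℝ) * (lam * (Cp * min η₁ (min (ε₀ * κ / (lam * (Cm + 1)))
            (κ / (lam * ((Cp + 1) * (e + 1)))))))
          ≤ (e + 1) * (lam * ((Cp + 1) * (κ / (lam * ((Cp + 1) * (e + 1)))))) := by
            gcongr
            · linarith
            · linarith
            · exact (min_le_right _ _).trans (min_le_right _ _)
        _ = 1 * κ := by field_simp
        _ ≤ C' * κ := by gcongr
  choose J₀ hJ₀ using fun i => esc_tst D hP1 hE (hce i) (hk₀ i) hη0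
  obtain ⟨Je, hJe1, hJe2⟩ : ∃ Je, J₁ ≤ Je ∧ ∀ i, J₀ i ≤ Je :=
    ⟨J₁ + ∑ i, J₀ i, by omega, fun i => by
      have := Finset.single_le_sum (f := J₀) (fun _ _ => Nat.zero_le _) (Finset.mem_univ i)
      omega⟩
  choose ℓe βe be hte hβe using fun i => hJ₀ i Je (hJe2 i)
  obtain ⟨i, hi⟩ := hlin (Sum.elim (fun i => ((lam : ℝ) : ℂ) • r (ℓe i)) (fun _ => r ℓg)) κ hκ0 (by
    intro t
    have hVsp : ∀ᵐ x : ℂ, SP P 1 d x ∈ VV P d := by
      have h4 : ∀ᵐ x : ℂ, x ∉ cvs P := by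
        rw [ae_iff]
        simp only [not_not]
        exact Set.Finite.measure_zero (cvs P).finite_toSet _
      filter_upwards [gen_ae D, h4] with x hx hxc
      exact SP_mem D hP hd hx fun c hc hcx => hxc ((mem_cvs hP1).2 ⟨c, hc, hcx⟩)
    by_cases ht : t = 0
    · rw [ht, norm_zero, mul_zero]
      exact norm_nonneg _
    have htn : 0 < ‖t‖ := norm_pos_iff.2 ht
    obtain ⟨τ₀, hτ₀⟩ : ∃ τ₀, ‖t τ₀‖ = ‖t‖ := by
      obtain ⟨τ₁, hτ₁⟩ := Function.ne_iff.1 ht
      obtain ⟨τ₀, -, hmax⟩ := Finset.exists_max_image Finset.univ (fun τ => ‖t τ‖)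
        ⟨τ₁, Finset.mem_univ τ₁⟩
      refine ⟨τ₀, le_antisymm (norm_le_pi_norm t τ₀) ?_⟩
      rw [pi_norm_le_iff_of_nonneg (norm_nonneg _)]
      exact fun τ => hmax τ (Finset.mem_univ τ)
    obtain ⟨V, hV⟩ : ∃ V : Fin (cvs P).card → ℂ, V = ∑ τ, t τ •
      (Sum.elim (fun i => ((lam : ℝ) : ℂ) • r (ℓe i)) (fun _ => r ℓg) τ :
        Fin (cvs P).card → ℂ) := ⟨_, rfl⟩
    have hV2 : V = ((lam : ℝ) : ℂ) • (∑ i, t (Sum.inl i) • r (ℓe i)) +
        t (Sum.inr 0) • r ℓg := by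
      rw [hV, Fintype.sum_sum_type, Finset.smul_sum, Fin.sum_univ_one]
      congr 1
      refine Finset.sum_congr rfl fun i _ => ?_
      simp only [Sum.elim_inl]
      rw [smul_comm]
    rw [← hV]
    rcases τ₀ with i₀ | i₀
    · -- an escaping orbit dominates
      obtain ⟨s, hs⟩ : ∃ s : Fin e → ℂ, s = fun i => t (Sum.inl i) := ⟨_, rfl⟩
      have hsn : ‖s‖ = ‖t‖ := by
        apply le_antisymm
        · rw [pi_norm_le_iff_of_nonneg (norm_nonneg _), hs]
          exact fun i => norm_le_pi_norm t _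
        · rw [← hτ₀]
          have := norm_le_pi_norm s i₀
          rw [hs] at this ⊢
          exact this
      have h1 := hind Je hJe1 ℓe βe be hte (fun i => (hβe i).trans hη1) s
        (∑ u, (∑ i, s i • r (ℓe i) : Fin (cvs P).card → ℂ) u • leval (cc u))
        (C' * ‖∑ i, s i • r (ℓe i)‖) (by positivity) (by
          filter_upwards [hVsp] with x hx
          rw [LinearMap.sum_apply]
          simp only [LinearMap.smul_apply, leval_apply, smul_eq_mul, Finset.sum_apply,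
            Pi.smul_apply]
          simp_rw [hr (ℓe _) _ hx, Finset.sum_mul, Finset.mul_sum]
          rw [Finset.sum_comm]
          refine Finset.sum_congr rfl fun i _ => Finset.sum_congr rfl fun u _ => ?_
          ring) (fun l hl => hC' _ l hl)
      rw [hsn] at h1
      have h2 : ‖t (Sum.inr 0) • r ℓg‖ ≤ ‖t‖ * (2 * Cq * Real.exp W) := by
        rw [norm_smul]
        gcongr
        exact norm_le_pi_norm t _
      have h3 : lam * ‖∑ i, s i • r (ℓe i)‖ - ‖t‖ * (2 * Cq * Real.exp W) ≤ ‖V‖ := by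
        have h4 := norm_sub_le V (t (Sum.inr 0) • r ℓg)
        have h5 : V - t (Sum.inr 0) • r ℓg = ((lam : ℝ) : ℂ) • ∑ i, s i • r (ℓe i) := by
          rw [hV2, add_sub_cancel_right, hs]
        rw [h5, norm_smul, Complex.norm_real, Real.norm_eq_abs, abs_of_pos hlam0] at h4
        linarith
      have h4 : c₁ / C' * ‖t‖ ≤ ‖∑ i, s i • r (ℓe i)‖ := by
        rw [div_mul_eq_mul_div, div_le_iff₀ (by linarith), mul_comm _ C']
        exact h1
      have h5 : lam * (c₁ / C' * ‖t‖) = 6 * Cq * Real.exp W * ‖t‖ := by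
        rw [hlam, hC4]
        have : C' ≠ 0 := by linarith
        field_simp
      have h6 : lam * (c₁ / C' * ‖t‖) ≤ lam * ‖∑ i, s i • r (ℓe i)‖ := by gcongr
      have h7 : 1 ≤ Cq * Real.exp W :=
        one_le_mul_of_one_le_of_one_le hCq1 (Real.one_le_exp hW0.le)
      have h9 : κ * ‖t‖ ≤ 1 * ‖t‖ := by gcongr
      have h10 : 1 * ‖t‖ ≤ (Cq * Real.exp W) * ‖t‖ := by gcongr
      have h12 : 0 ≤ (Cq * Real.exp W) * ‖t‖ := by positivity
      rw [h5] at h6
      nlinarith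
    · -- the critical orbit dominates
      have hi₀ : i₀ = 0 := Subsingleton.elim _ _
      rw [hi₀] at hτ₀
      by_contra hcon
      push Not at hcon
      have ht0 : t (Sum.inr 0) ≠ 0 := by
        intro h0
        rw [h0, norm_zero] at hτ₀
        linarith
      obtain ⟨t', ht'⟩ : ∃ t' : Fin e ⊕ Fin 1 → ℂ, t' = (t (Sum.inr 0))⁻¹ • t := ⟨_, rfl⟩
      have ht'1 : ∀ τ, ‖t' τ‖ ≤ 1 := by
        intro τ
        rw [ht', Pi.smul_apply, norm_smul, norm_inv, hτ₀, inv_mul_le_iff₀ htn, mul_one]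
        exact norm_le_pi_norm t τ
      have ht'0 : t' (Sum.inr 0) = 1 := by
        rw [ht', Pi.smul_apply, smul_eq_mul, inv_mul_cancel₀ ht0]
      obtain ⟨V', hV'⟩ : ∃ V' : Fin (cvs P).card → ℂ, V' = (t (Sum.inr 0))⁻¹ • V := ⟨_, rfl⟩
      have hV'n : ‖V'‖ ≤ κ := by
        rw [hV', norm_smul, norm_inv, hτ₀, inv_mul_le_iff₀ htn, mul_comm]
        exact hcon.le
      have hV'2 : V' = ∑ i, (lam * t' (Sum.inl i)) • r (ℓe i) + r ℓg := by
        rw [hV', hV2, smul_add, smul_smul _ _ (r ℓg), inv_mul_cancel₀ ht0, one_smul, ht',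
          Finset.smul_sum, Finset.smul_sum]
        congr 1
        refine Finset.sum_congr rfl fun i _ => ?_
        rw [smul_smul, smul_smul, Pi.smul_apply, smul_eq_mul]
        congr 1
        ring
      have hW'1 : 1 ≤ (1 + C6) * W := one_le_mul_of_one_le_of_one_le (by linarith) hW1
      have hW'A : ((1 + C6) * W) ^ A = CA * W ^ A := by
        rw [Real.mul_rpow (by linarith) hW0.le, hCA]
      have hcδ0 : 0 < c₀ * δ := mul_pos hc₀ hδ
      have hcδc : c₀ * δ ≤ c₀ := mul_le_of_le_one_right hc₀.le hδ1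
      have hcδd : c₀ * δ ≤ δ := mul_le_of_le_one_left hδ.le hc₁
      have hcδ1 : c₀ * δ ≤ 1 := hcδd.trans hδ1
      have hsepE : ∀ i j, c₀ * δ ≤ ‖orb P (P.eval (ce i)) j - v‖ := by
        intro i j
        have h1 := hdg _ (KR_ur k₀ hK)
        have h2 : dg (UR P 1 (UR P 1 (ball 0 R) k₀)) v 0 ≤
            ‖orb P (P.eval (ce i)) j - v‖ := dg_le (hpole i j)
        exact hcδc.trans (h1.trans h2)
      have hsepO : ∀ j, j ≠ 0 → j < J' + 1 → c₀ * δ ≤ ‖orb P v j - v‖ := by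
        intro j hj0 hj
        exact hcδd.trans (hsep j (by omega) hj)
      have key := hA (Fin e ⊕ Fin 1)
        (Sum.elim (fun i => orb P (P.eval (ce i))) (fun _ => orb P v))
        (Sum.elim (fun i => dl P (P.eval (ce i))) (fun _ => dl P v))
        (Sum.elim (fun _ => Je) (fun _ => J' + 1)) (Sum.elim ℓe (fun _ => ℓg))
        (Sum.elim (fun i x => βe i / (x - be i))
          (fun _ x => dl P v (J' + 1) * (1 / (x - orb P v (J' + 1)) - 1 / (x - v))))
        (Sum.elim (fun i => Cp * ‖βe i‖) fun _ => aJ * ω)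
        (by
          rintro (i | i)
          · exact (hte i).psh
          · exact htg)
        (by
          rintro (i | i)
          · exact measurable_const.div (measurable_id.sub_const _)
          · exact ((measurable_const.div (measurable_id.sub_const _)).sub
              (measurable_const.div (measurable_id.sub_const _))).const_mul _)
        (by
          rintro (i | i)
          · exact mul_nonneg hCp0 (norm_nonneg _)
          · exact mul_nonneg haJ0 hω)
        (by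
          rintro (i | i)
          · exact hCp _ _
          · simp only [Sum.elim_inr]
            simp_rw [enorm_mul]
            rw [lintegral_const_mul' _ _ enorm_ne_top, ENNReal.ofReal_mul haJ0, haJ, ofReal_norm]
            gcongr
            exact (lintegral_mono_set (T.sub0 k₀)).trans hω1)
        (by
          rintro (i | i) j _
          · exact Or.inr (hpole i j)
          · exact Or.inl (KR_ur k₀ (orb_KR hK j)))
        (Sum.elim (fun i => lam * t' (Sum.inl i)) (fun _ => 1)) (Sum.inr 0)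
        (by simp) rfl (dl_zero _) (KR_ur k₀ hK) ((1 + C6) * W) hW'1
        (by
          rw [Fintype.sum_sum_type]
          simp only [Sum.elim_inl, Sum.elim_inr, Fin.sum_univ_one, one_mul]
          have h1 : ∑ i, ∑ j ∈ Finset.range Je, ‖lam * t' (Sum.inl i) *
              dl P (P.eval (ce i)) j‖ ≤ lam * CE := by
            rw [hCE, Finset.mul_sum]
            refine Finset.sum_le_sum fun i _ => ?_
            have h2 : ∀ j ∈ Finset.range Je, ‖lam * t' (Sum.inl i) *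
                dl P (P.eval (ce i)) j‖ ≤ lam * ‖dl P (P.eval (ce i)) j‖ := by
              intro j _
              rw [norm_mul, norm_mul, Complex.norm_real, Real.norm_eq_abs, abs_of_pos hlam0]
              have := ht'1 (Sum.inl i)
              calc lam * ‖t' (Sum.inl i)‖ * ‖dl P (P.eval (ce i)) j‖
                  ≤ lam * 1 * ‖dl P (P.eval (ce i)) j‖ := by gcongr
                _ = _ := by ring
            refine (Finset.sum_le_sum h2).trans ?_
            rw [← Finset.mul_sum]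
            gcongr
            exact (dl_summable hE (hk₀ i)).sum_le_tsum _ fun j _ => norm_nonneg _
          have h3 : 1 + C6 ≤ Real.exp C6 := by
            have := Real.add_one_le_exp C6
            linarith
          have hWs' : ∑ j ∈ Finset.range (J' + 1), ‖dl P v j‖ ≤ Real.exp W := hWs
          calc _ ≤ lam * CE + Real.exp W := add_le_add h1 hWs'
            _ = (1 + C6) * Real.exp W := by rw [hlam, hC6]; ring
            _ ≤ Real.exp C6 * Real.exp W := by gcongr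
            _ = Real.exp (C6 + W) := by rw [Real.exp_add]
            _ ≤ Real.exp ((1 + C6) * W) := by
                apply Real.exp_le_exp.2
                nlinarith)
        (∑ u, V' u • leval (cc u)) (C' * κ) (by positivity)
        (by
          filter_upwards [hVsp] with x hx
          rw [LinearMap.sum_apply, Fintype.sum_sum_type]
          simp only [LinearMap.smul_apply, leval_apply, smul_eq_mul, Sum.elim_inl, Sum.elim_inr,
            Fin.sum_univ_one, one_mul]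
          rw [hV'2]
          simp only [Pi.add_apply, Finset.sum_apply, Pi.smul_apply, smul_eq_mul]
          simp_rw [hr (ℓe _) _ hx]
          rw [hr ℓg _ hx]
          simp_rw [add_mul, Finset.sum_add_distrib, Finset.sum_mul, Finset.mul_sum]
          congr 1
          rw [Finset.sum_comm]
          refine Finset.sum_congr rfl fun i _ => Finset.sum_congr rfl fun u _ => ?_
          ring)
        (fun l hl => (hC' V' l hl).trans (by gcongr))
        (c₀ * δ) hcδ0 hcδ1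
        (by
          rintro (i | i) j hj hij
          · exact hsepE i j
          · have hj0 : j ≠ 0 := by
              rcases hij with h2 | h2
              · obtain rfl : i = 0 := Subsingleton.elim _ _
                exact absurd rfl h2
              · exact h2
            exact hsepO j hj0 hj)
        M hM
        (by
          change A * ((1 + C6) * W) ^ A *
            dg (UR P 1 (UR P 1 (ball 0 R) k₀)) v M ≤ c₀ * δ
          rw [hW'A]
          have h2 := dg_ur T k₀ M v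
          have h2' : dg (UR P 1 (ball 0 R)) v M ≤ ‖y - v‖ := dg_le hyM
          have h3 : 0 ≤ dg (UR P 1 (UR P 1 (ball 0 R) k₀)) v M := infDist_nonneg
          have h4 : c₀ * (B * W ^ B * ‖y - v‖) ≤ c₀ * δ := by
            gcongr
          refine le_trans ?_ h4
          calc A * (CA * W ^ A) * dg (UR P 1 (UR P 1 (ball 0 R) k₀)) v M
              ≤ A * (CA * W ^ A) * ‖y - v‖ := by
                gcongr
                exact h2.trans h2'
            _ = c₀ * (A * CA / c₀ * W ^ A * ‖y - v‖) := by field_simp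
            _ ≤ c₀ * (B * W ^ B * ‖y - v‖) := by gcongr)
      have hsum : ∑ τ : Fin e ⊕ Fin 1, ‖(Sum.elim (fun i => lam * t' (Sum.inl i)) (fun _ => 1) τ :
          ℂ)‖ * (Sum.elim (fun i => Cp * ‖βe i‖) (fun _ => aJ * ω) τ : ℝ) ≤
          C' * κ + C' * κ := by
        rw [Fintype.sum_sum_type]
        simp only [Sum.elim_inl, Sum.elim_inr, Fin.sum_univ_one, norm_one, one_mul]
        refine add_le_add ?_ ?_
        · refine le_trans ?_ hη3
          refine (Finset.sum_le_sum (g := fun _ => lam * (Cp * η)) fun i _ => ?_).trans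
            (le_of_eq ?_)
          · rw [norm_mul, Complex.norm_real, Real.norm_eq_abs, abs_of_pos hlam0]
            have h1 := ht'1 (Sum.inl i)
            have h2 := hβe i
            calc lam * ‖t' (Sum.inl i)‖ * (Cp * ‖βe i‖) ≤ lam * 1 * (Cp * η) := by gcongr
              _ = lam * (Cp * η) := by ring
          · rw [Finset.sum_const, Finset.card_univ, Fintype.card_fin, nsmul_eq_mul]
        · calc aJ * ω ≤ 1 * κ := by rw [one_mul]; exact hsmall
            _ ≤ C' * κ := by gcongr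
      rw [hW'A] at key
      have h1 : A * (CA * W ^ A) * (M : ℝ) ^ 2 * (C' * κ + (C' * κ + C' * κ)) =
          3 / 4 * (c₀ * δ) := by
        rw [hκ, hKe]
        have : C' ≠ 0 := by linarith
        have : CA ≠ 0 := by linarith
        field_simp
        ring
      have h2 : A * (CA * W ^ A) * (M : ℝ) ^ 2 * (C' * κ +
          ∑ τ : Fin e ⊕ Fin 1, ‖(Sum.elim (fun i => lam * t' (Sum.inl i)) (fun _ => 1) τ :
          ℂ)‖ * (Sum.elim (fun i => Cp * ‖βe i‖) (fun _ => aJ * ω) τ : ℝ)) ≤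
          3 / 4 * (c₀ * δ) := by
        rw [← h1]
        gcongr
      have h3 : 0 < c₀ * δ := by positivity
      linarith)
  rcases i with i | i
  · have h1 : ∑ u, (((lam : ℝ) : ℂ) • r (ℓe i)) u * S.eval (cc u) = lam * ℓe i S := by
      rw [hr (ℓe i) S hSV, Finset.mul_sum]
      refine Finset.sum_congr rfl fun u _ => ?_
      simp only [Pi.smul_apply, smul_eq_mul]
      ring
    simp only [Sum.elim_inl] at hi
    rw [h1, (hte i).smu T D hμ hSΛ, norm_mul, norm_neg, norm_mul, Complex.norm_real,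
      Real.norm_eq_abs, abs_of_pos hlam0] at hi
    have h2 : lam * (‖βe i‖ * ‖cau μ (be i)‖) ≤ lam * η * Cm := by
      rw [mul_assoc]
      gcongr
      · exact hβe i
      · exact hCm _
    linarith
  · have h1 : ∑ u, r ℓg u * S.eval (cc u) = ℓg S := (hr ℓg S hSV).symm
    simp only [Sum.elim_inr] at hi
    rw [h1] at hi
    have h2 : ε₀ * κ < aJ * (Cμ * ω) := hi.trans_le hℓS
    have h3 : δ < Ke * (Cμ / ε₀) * W ^ A * (M : ℝ) ^ 2 * (aJ * ω) := by
      rw [hκ, mul_div_assoc', div_lt_iff₀ (by positivity)] at h2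
      have h4 : Ke * (Cμ / ε₀) * W ^ A * (M : ℝ) ^ 2 * (aJ * ω) =
          (aJ * (Cμ * ω) * (Ke * W ^ A * (M : ℝ) ^ 2)) / ε₀ := by
        field_simp
      rw [h4, lt_div_iff₀ hε₀]
      linarith
    have h4 : Ke * (Cμ / ε₀) * W ^ A * (M : ℝ) ^ 2 * (aJ * ω) ≤
        B * W ^ B * (M : ℝ) ^ 2 * (aJ * ω) := by gcongr
    linarith

end Pool.Agent.Zk29.Nl
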