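import Pool.Agent.Zk29.Nl.N3
import Pool.Agent.Zk29.Ab.B2

/-!
# The orbit of the critical value as a system
-/

set_option autoImplicit false
open Set Filter Topology Metric MeasureTheory Polynomial
open scoped ENNReal

namespace Pool.Agent.Zk29.Nl

open Pool.Agent.Zk29.Rat Pool.Agent.Zk29.Ab

variable {P : ℂ[X]} {d : ℕ} {R : ℝ}

/-- The critical points. -/
def Zc (P : ℂ[X]) : Set ℂ := {c | (derivative P).eval c = 0}

lemma der_ne (hP : 2 ≤ P.natDegree) : derivative P ≠ 0 := by
  rw [derivative_ne_zero]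
  omega

lemma Zc_fin (hP : 2 ≤ P.natDegree) : (Zc P).Finite := by
  have h1 : Zc P = ((derivative P).roots.toFinset : Set ℂ) := by
    ext z
    unfold Zc
    simp [der_ne hP]
  rw [h1]
  exact Finset.finite_toSet _

lemma Zc_ne (hP : 2 ≤ P.natDegree) : (Zc P).Nonempty := by
  have h2 : (derivative P).natDegree = P.natDegree - 1 := natDegree_derivative P
  have h1 : (derivative P).degree ≠ 0 := (natDegree_pos_iff_degree_pos.1 (by omega)).ne'
  obtain ⟨c, hc⟩ := IsAlgClosed.exists_root _ h1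
  exact ⟨c, hc⟩

lemma Zc_pos (hP : 2 ≤ P.natDegree) {z : ℂ} (hz : (derivative P).eval z ≠ 0) :
    0 < infDist z (Zc P) :=
  ((Zc_fin hP).isClosed.notMem_iff_infDist_pos (Zc_ne hP)).1 hz

/-- The growth of a polynomial away from its roots. -/
lemma poly_growth (G : ℂ[X]) {z : ℂ} {θ : ℝ} (hθ : 0 < θ)
    (h : ∀ c ∈ G.roots, θ ≤ ‖z - c‖) (u : ℂ) :
    ‖G.eval u‖ ≤ ‖G.eval z‖ * (1 + ‖u - z‖ / θ) ^ G.natDegree := by
  have hs : G.Splits := IsAlgClosed.splits G
  have h1 : ∀ s : Multiset ℂ, (∀ c ∈ s, θ ≤ ‖z - c‖) →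
      ‖(s.map fun a => u - a).prod‖ ≤ ‖(s.map fun a => z - a).prod‖ *
        (1 + ‖u - z‖ / θ) ^ (Multiset.card s) := by
    intro s
    induction s using Multiset.induction_on with
    | empty => intro _; simp
    | cons a s ih =>
      intro hs
      have h2 := ih fun c hc => hs c (Multiset.mem_cons_of_mem hc)
      have h3 := hs a (Multiset.mem_cons_self a s)
      have h4 : ‖u - a‖ ≤ ‖z - a‖ * (1 + ‖u - z‖ / θ) := by
        have h5 : ‖u - a‖ ≤ ‖u - z‖ + ‖z - a‖ := by
          have := norm_add_le (u - z) (z - a)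
          rwa [sub_add_sub_cancel] at this
        have h6 : ‖u - z‖ ≤ ‖z - a‖ * (‖u - z‖ / θ) := by
          rw [mul_div_assoc', le_div_iff₀ hθ, mul_comm]
          gcongr
        linarith
      rw [Multiset.map_cons, Multiset.prod_cons, Multiset.map_cons, Multiset.prod_cons,
        Multiset.card_cons, norm_mul, norm_mul, pow_succ]
      calc ‖u - a‖ * ‖(s.map fun a => u - a).prod‖
          ≤ (‖z - a‖ * (1 + ‖u - z‖ / θ)) * (‖(s.map fun a => z - a).prod‖ *
            (1 + ‖u - z‖ / θ) ^ (Multiset.card s)) := by gcongr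
        _ = _ := by ring
  have h2 := h1 G.roots h
  rw [hs.eval_eq_prod_roots u, hs.eval_eq_prod_roots z, norm_mul, norm_mul, mul_assoc,
    hs.natDegree_eq_card_roots]
  gcongr

/-- Bernoulli from above. -/
lemma pow_one_add_le {t : ℝ} (h0 : 0 ≤ t) (h1 : t ≤ 1) (n : ℕ) :
    (1 + t) ^ n ≤ 1 + (2 ^ n - 1) * t := by
  induction n with
  | zero => simp
  | succ n ih =>
    have h2 : (1 : ℝ) ≤ 2 ^ n := one_le_pow₀ (by norm_num)
    rw [pow_succ, pow_succ]
    have h3 : (2 ^ n - 1) * t * t ≤ (2 ^ n - 1) * t * 1 := by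
      gcongr
    calc (1 + t) ^ n * (1 + t) ≤ (1 + (2 ^ n - 1) * t) * (1 + t) := by gcongr
      _ = 1 + 2 ^ n * t + (2 ^ n - 1) * t * t := by ring
      _ ≤ 1 + 2 ^ n * t + (2 ^ n - 1) * t * 1 := by linarith
      _ = 1 + (2 ^ n * 2 - 1) * t := by ring

/-- The distortion near a non-critical point. -/
lemma lin_bound (hP : 2 ≤ P.natDegree) {z w : ℂ} (hz : (derivative P).eval z ≠ 0) {κ : ℝ}
    (hκ : 2 ^ P.natDegree ≤ κ) (hw : κ * ‖w - z‖ ≤ infDist z (Zc P)) :
    ‖P.eval w - P.eval z‖ ≤ ‖(derivative P).eval z‖ * ‖w - z‖ *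
      (1 + κ * ‖w - z‖ / infDist z (Zc P)) := by
  have hθ := Zc_pos hP hz
  obtain ⟨θ, hθe⟩ : ∃ θ, θ = infDist z (Zc P) := ⟨_, rfl⟩
  rw [← hθe] at hθ hw ⊢
  have hκ1 : (1 : ℝ) ≤ κ := (one_le_pow₀ (by norm_num)).trans hκ
  have hroot : ∀ c ∈ (derivative P).roots, θ ≤ ‖z - c‖ := by
    intro c hc
    have h1 : c ∈ Zc P := (mem_roots (der_ne hP)).1 hc
    rw [hθe, ← dist_eq_norm]
    exact infDist_le_dist_of_mem h1
  have hwθ : ‖w - z‖ ≤ θ := by
    have h1 : 1 * ‖w - z‖ ≤ κ * ‖w - z‖ := by gcongr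
    linarith
  have hder : ∀ u ∈ segment ℝ z w, ‖deriv (fun x => P.eval x) u‖ ≤
      ‖(derivative P).eval z‖ * (1 + κ * ‖w - z‖ / θ) := by
    intro u hu
    rw [Polynomial.deriv]
    have h1 : ‖u - z‖ ≤ ‖w - z‖ := by
      have h2 : u ∈ closedBall z ‖w - z‖ := by
        apply (convex_closedBall z ‖w - z‖).segment_subset _ _ hu
        · exact mem_closedBall_self (norm_nonneg _)
        · rw [mem_closedBall, dist_eq_norm]
      rwa [mem_closedBall, dist_eq_norm] at h2
    refine (poly_growth _ hθ hroot u).trans ?_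
    have h3 : ‖u - z‖ / θ ≤ ‖w - z‖ / θ := by gcongr
    have h4 : ‖w - z‖ / θ ≤ 1 := by rw [div_le_one hθ]; exact hwθ
    have h5 : (1 + ‖u - z‖ / θ) ^ (derivative P).natDegree ≤ 1 + κ * ‖w - z‖ / θ := by
      calc (1 + ‖u - z‖ / θ) ^ (derivative P).natDegree
          ≤ (1 + ‖w - z‖ / θ) ^ (derivative P).natDegree := by gcongr
        _ ≤ 1 + (2 ^ (derivative P).natDegree - 1) * (‖w - z‖ / θ) :=
            pow_one_add_le (by positivity) h4 _
        _ ≤ 1 + κ * (‖w - z‖ / θ) := by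
            gcongr
            refine (sub_le_self _ zero_le_one).trans ?_
            refine le_trans ?_ hκ
            apply pow_le_pow_right₀ (by norm_num)
            rw [natDegree_derivative]
            omega
        _ = _ := by ring
    gcongr
  have h1 := (convex_segment z w).norm_image_sub_le_of_norm_deriv_le
    (f := fun x => P.eval x) (fun u _ => P.differentiable.differentiableAt) hder
    (left_mem_segment ℝ z w) (right_mem_segment ℝ z w)
  calc ‖P.eval w - P.eval z‖ ≤ _ := h1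
    _ = _ := by ring

/-- Values near the critical value. -/
theorem val_bound (hP : 2 ≤ P.natDegree) {K : Set ℂ} (hK : IsCompact K) {v : ℂ}
    (hone : ∀ c', (derivative P).eval c' = 0 → c' ∈ K → P.eval c' = v) :
    ∃ κ : ℝ, ∀ z ∈ K, ‖P.eval z - v‖ ≤ κ * (‖(derivative P).eval z‖ * infDist z (Zc P)) := by
  have hN0 := der_ne hP
  refine hK.induction_on (p := fun s => ∃ κ : ℝ, ∀ z ∈ s,
    ‖P.eval z - v‖ ≤ κ * (‖(derivative P).eval z‖ * infDist z (Zc P))) ?_ ?_ ?_ ?_
  · exact ⟨0, fun z hz => absurd hz (Set.notMem_empty z)⟩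
  · rintro s t hst ⟨C, hC⟩
    exact ⟨C, fun z hz => hC z (hst hz)⟩
  · rintro s t ⟨C, hC⟩ ⟨C', hC'⟩
    refine ⟨max C C', fun z hz => ?_⟩
    have h0 : 0 ≤ ‖(derivative P).eval z‖ * infDist z (Zc P) :=
      mul_nonneg (norm_nonneg _) infDist_nonneg
    rcases hz with hz | hz
    · exact (hC z hz).trans (by gcongr; exact le_max_left _ _)
    · exact (hC' z hz).trans (by gcongr; exact le_max_right _ _)
  · intro z₀ hz₀
    by_cases h0 : (derivative P).eval z₀ = 0
    · -- a critical point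
      have hv : P.eval z₀ = v := hone z₀ h0 hz₀
      obtain ⟨m, hm⟩ : ∃ m, m = rootMultiplicity z₀ (derivative P) := ⟨_, rfl⟩
      obtain ⟨g, hg, hg0⟩ : ∃ g : ℂ[X], derivative P = (X - C z₀) ^ m * g ∧ g.eval z₀ ≠ 0 := by
        obtain ⟨g, hg1, hg2⟩ := exists_eq_pow_rootMultiplicity_mul_and_not_dvd _ hN0 z₀
        rw [← hm] at hg1
        refine ⟨g, hg1, fun h0 => hg2 ?_⟩
        rwa [dvd_iff_isRoot]
      obtain ⟨h, hh⟩ : ∃ h : ℂ[X], P - C v = (X - C z₀) ^ (m + 1) * h := by
        obtain ⟨G, hG⟩ : ∃ G, G = P - C v := ⟨_, rfl⟩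
        have hr : G.IsRoot z₀ := by
          rw [hG, IsRoot.def, eval_sub, eval_C, hv, sub_self]
        have hG' : derivative G = derivative P := by rw [hG, derivative_sub, derivative_C, sub_zero]
        have h1 := derivative_rootMultiplicity_of_root hr
        rw [hG', ← hm] at h1
        have h2 : 0 < rootMultiplicity z₀ G := by
          rw [rootMultiplicity_pos]
          · exact hr
          · intro h0
            rw [h0, derivative_zero] at hG'
            exact hN0 hG'.symm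
        have h3 : m + 1 = rootMultiplicity z₀ G := by omega
        rw [← hG, h3]
        exact pow_rootMultiplicity_dvd _ _
      -- the distance to the critical points
      have hfin : ((Zc P) \ {z₀}).Finite := (Zc_fin hP).subset sdiff_subset
      have hdist : ∀ᶠ z in 𝓝 z₀, ‖z - z₀‖ ≤ infDist z (Zc P) := by
        have h1 : ∀ᶠ z in 𝓝 z₀, ∀ c' ∈ (Zc P) \ {z₀}, ‖z - z₀‖ ≤ ‖z - c'‖ := by
          rw [eventually_all_finite hfin]
          intro c' hc'
          have h2 : 0 < ‖z₀ - c'‖ := by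
            rw [norm_pos_iff, sub_ne_zero]
            exact fun h => hc'.2 h.symm
          have h3 : ContinuousAt (fun z : ℂ => ‖z - c'‖ - ‖z - z₀‖) z₀ := by fun_prop
          have h4 : ∀ᶠ z in 𝓝 z₀, 0 < ‖z - c'‖ - ‖z - z₀‖ := by
            apply h3.eventually_const_lt
            change 0 < ‖z₀ - c'‖ - ‖z₀ - z₀‖
            rw [sub_self, norm_zero, sub_zero]
            exact h2
          filter_upwards [h4] with z hz
          linarith
        filter_upwards [h1] with z hz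
        rw [le_infDist (Zc_ne hP)]
        intro y hy
        rw [dist_eq_norm]
        by_cases hyz : y = z₀
        · rw [hyz]
        · exact hz y ⟨hy, hyz⟩
      have hcont : ContinuousAt (fun z => ‖h.eval z / g.eval z‖) z₀ := by
        refine ContinuousAt.norm (ContinuousAt.div ?_ ?_ hg0)
        · exact h.continuous.continuousAt
        · exact g.continuous.continuousAt
      have hev : ∀ᶠ z in 𝓝 z₀, ‖h.eval z / g.eval z‖ < ‖h.eval z₀ / g.eval z₀‖ + 1 :=
        hcont.eventually_lt_const (by linarith)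
      have hg1 : ∀ᶠ z in 𝓝 z₀, g.eval z ≠ 0 := g.continuous.continuousAt.eventually_ne hg0
      refine ⟨{z | (‖z - z₀‖ ≤ infDist z (Zc P) ∧ ‖h.eval z / g.eval z‖ <
          ‖h.eval z₀ / g.eval z₀‖ + 1) ∧ g.eval z ≠ 0},
        mem_nhdsWithin_of_mem_nhds ((hdist.and hev).and hg1), ‖h.eval z₀ / g.eval z₀‖ + 1, ?_⟩
      rintro z ⟨⟨h1, h2⟩, h3⟩
      have e1 : P.eval z - v = (z - z₀) ^ (m + 1) * h.eval z := by
        have := congrArg (fun p => p.eval z) hh
        simpa using this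
      have e2 : (derivative P).eval z = (z - z₀) ^ m * g.eval z := by
        have := congrArg (fun p => p.eval z) hg
        simpa using this
      rw [e1, e2, norm_mul, norm_mul, norm_pow, norm_pow]
      have h4 : ‖h.eval z‖ ≤ (‖h.eval z₀ / g.eval z₀‖ + 1) * ‖g.eval z‖ := by
        rw [norm_div, div_lt_iff₀ (norm_pos_iff.2 h3)] at h2
        exact h2.le
      have h5 : 0 ≤ ‖h.eval z₀ / g.eval z₀‖ + 1 := by positivity
      calc ‖z - z₀‖ ^ (m + 1) * ‖h.eval z‖
          ≤ ‖z - z₀‖ ^ (m + 1) * ((‖h.eval z₀ / g.eval z₀‖ + 1) * ‖g.eval z‖) := by gcongr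
        _ = (‖h.eval z₀ / g.eval z₀‖ + 1) * (‖z - z₀‖ ^ m * ‖g.eval z‖ * ‖z - z₀‖) := by ring
        _ ≤ (‖h.eval z₀ / g.eval z₀‖ + 1) * (‖z - z₀‖ ^ m * ‖g.eval z‖ * infDist z (Zc P)) := by
            gcongr
    · -- not a critical point
      have h1 := Zc_pos hP h0
      have h2 : ‖(derivative P).eval z₀‖ * infDist z₀ (Zc P) ≠ 0 :=
        mul_ne_zero (norm_ne_zero_iff.2 h0) h1.ne'
      have hc1 : ContinuousAt (fun z => ‖(derivative P).eval z‖ * infDist z (Zc P)) z₀ :=
        ((derivative P).continuous.norm.mul (continuous_infDist_pt _)).continuousAt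
      have hc2 : ContinuousAt (fun z => ‖P.eval z - v‖ /
          (‖(derivative P).eval z‖ * infDist z (Zc P))) z₀ := by
        refine ContinuousAt.div ?_ hc1 h2
        exact (P.continuous.sub continuous_const).norm.continuousAt
      obtain ⟨C, hC⟩ : ∃ C, C = ‖P.eval z₀ - v‖ /
          (‖(derivative P).eval z₀‖ * infDist z₀ (Zc P)) + 1 := ⟨_, rfl⟩
      have h3 : ∀ᶠ z in 𝓝 z₀, ‖P.eval z - v‖ /
          (‖(derivative P).eval z‖ * infDist z (Zc P)) < C :=
        hc2.eventually_lt_const (by rw [hC]; linarith)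
      have h4 : ∀ᶠ z in 𝓝 z₀, ‖(derivative P).eval z‖ * infDist z (Zc P) ≠ 0 :=
        hc1.eventually_ne h2
      refine ⟨_, mem_nhdsWithin_of_mem_nhds (h3.and h4), C, ?_⟩
      rintro z ⟨h5, h6⟩
      have h7 : 0 < ‖(derivative P).eval z‖ * infDist z (Zc P) :=
        lt_of_le_of_ne (mul_nonneg (norm_nonneg _) infDist_nonneg) (Ne.symm h6)
      rw [div_lt_iff₀ h7] at h5
      exact h5.le

end Pool.Agent.Zk29.Nl
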