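import Pool.Agent.Zk29.Nl.N4
import Pool.Agent.Zk29.Nl.N5
import Pool.Agent.Zk29.Rat.EscI

/-!
# The bound for the derivatives
-/

set_option autoImplicit false
open Set Filter Topology Metric MeasureTheory Polynomial
open scoped ENNReal

namespace Pool.Agent.Zk29.Nl

open Pool.Agent.Zk29.Rat Pool.Agent.Zk29.Ab

variable {P : ℂ[X]} {d : ℕ} {R : ℝ}

lemma DD_dl (v : ℂ) (j : ℕ) :
    (DD (fun j => ‖(derivative P).eval (orb P v j)‖) j)⁻¹ = ‖dl P v j‖ := by
  induction j with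
  | zero => rw [DD_zero, dl_zero, norm_one, inv_one]
  | succ j ih =>
    rw [DD_succ, dl_succ, norm_mul, mul_inv, ih, one_div, norm_inv]

lemma DD_deriv (v : ℂ) (j : ℕ) :
    DD (fun j => ‖(derivative P).eval (orb P v j)‖) j =
      ‖deriv ((fun w : ℂ => P.eval w)^[j]) v‖ := by
  have := DD_dl (P := P) v j
  unfold dl at this
  rw [norm_inv, inv_inj] at this
  exact this

lemma bdd_quasi {D : ℕ → ℝ} {B : ℝ} (hB1 : 1 ≤ B) (hB : ∀ N, D N ≤ B) :
    ∃ K : ℝ, ∀ N : ℕ, 2 ≤ N → D N ≤ Real.exp (K * Real.log N ^ 2) := by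
  have hl2 : 0 < Real.log 2 := Real.log_pos (by norm_num)
  refine ⟨Real.log B / Real.log 2 ^ 2, fun N hN => (hB N).trans ?_⟩
  rw [← Real.log_le_iff_le_exp (by linarith), div_mul_eq_mul_div, le_div_iff₀ (by positivity)]
  have h1 := Real.log_nonneg hB1
  have h2 : Real.log 2 ≤ Real.log N := Real.log_le_log (by norm_num) (by exact_mod_cast hN)
  gcongr

/-- A critical orbit. -/
lemma crit_quasi {v : ℂ} {j : ℕ} (hj : (derivative P).eval (orb P v j) = 0) :
    ∃ K : ℝ, ∀ N : ℕ, 2 ≤ N → ‖deriv ((fun w : ℂ => P.eval w)^[N]) v‖ ≤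
      Real.exp (K * Real.log N ^ 2) := by
  have h0 : ∀ n, deriv ((fun w : ℂ => P.eval w)^[j + 1 + n]) v = 0 := by
    intro n
    induction n with
    | zero =>
      rw [add_zero, deriv_iter_succ, hj, zero_mul]
    | succ n ih => rw [← add_assoc, deriv_iter_succ, ih, mul_zero]
  obtain ⟨B, hB⟩ : ∃ B, B = 1 + ∑ i ∈ Finset.range (j + 1),
    ‖deriv ((fun w : ℂ => P.eval w)^[i]) v‖ := ⟨_, rfl⟩
  have hs : 0 ≤ ∑ i ∈ Finset.range (j + 1), ‖deriv ((fun w : ℂ => P.eval w)^[i]) v‖ :=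
    Finset.sum_nonneg fun _ _ => norm_nonneg _
  refine bdd_quasi (B := B) (by linarith) fun N => ?_
  rcases lt_or_ge N (j + 1) with h | h
  · have := Finset.single_le_sum (f := fun i => ‖deriv ((fun w : ℂ => P.eval w)^[i]) v‖)
      (fun _ _ => norm_nonneg _) (Finset.mem_range.2 h)
    linarith
  · obtain ⟨n, rfl⟩ := Nat.exists_eq_add_of_le h
    rw [h0, norm_zero]
    linarith

/-- The Cauchy estimate. -/
lemma cauchy_esc (v : ℂ) {N : ℕ} {s : ℝ} (hs : 0 < s)
    (h : R + 1 ≤ ‖deriv ((fun w : ℂ => P.eval w)^[N]) v‖ * s) :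
    ∃ y, ‖y - v‖ ≤ s ∧ y ∉ UR P 1 (ball 0 R) N := by
  by_contra hcon
  push Not at hcon
  have h1 : ‖deriv ((fun w : ℂ => P.eval w)^[N]) v‖ ≤ R / s := by
    apply Complex.norm_deriv_le_of_forall_mem_sphere_norm_le hs
    · exact (iter_differentiable N).diffContOnCl
    · intro z hz
      rw [mem_sphere, dist_eq_norm] at hz
      exact (mem_UR.1 (hcon z hz.le)).le
  rw [le_div_iff₀ hs] at h1
  linarith

/-- An attracting cycle. -/
lemma deep_quasi (hE : Esc P R) {v : ℂ} {θ : ℕ → ℝ} {κ : ℝ} {m : ℕ} (hm : 1 ≤ m)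
    (h : Deep (fun w : ℂ => P.eval w) v θ κ m) :
    ∃ K : ℝ, ∀ N : ℕ, 2 ≤ N → ‖deriv ((fun w : ℂ => P.eval w)^[N]) v‖ ≤
      Real.exp (K * Real.log N ^ 2) := by
  obtain ⟨ρ, hρ, hv, hx⟩ := h
  have h1 : ∀ k x, ‖x - v‖ ≤ 2 * ρ → ‖((fun w : ℂ => P.eval w)^[m])^[k] x - v‖ ≤ 2 * ρ := by
    intro k
    induction k with
    | zero => intro x hx'; exact hx'
    | succ k ih =>
      intro x hx'
      rw [Function.iterate_succ_apply]
      apply ih
      have h2 := (hx x hx').2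
      have h3 := norm_add_le ((fun w : ℂ => P.eval w)^[m] x - (fun w : ℂ => P.eval w)^[m] v)
        ((fun w : ℂ => P.eval w)^[m] v - v)
      rw [sub_add_sub_cancel] at h3
      linarith
  have h2 : ∀ x, ‖x - v‖ ≤ 2 * ρ → ∀ N, ‖(fun w : ℂ => P.eval w)^[N] x‖ < R := by
    intro x hx'
    rw [← mem_KR, KR_filled hE]
    intro hcon
    have h3 := (hcon.comp (tendsto_id.const_mul_atTop' (by omega : 0 < m))).eventually
      (eventually_gt_atTop (2 * ρ + ‖v‖))
    obtain ⟨k, hk⟩ := h3.exists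
    have h4 := h1 k x hx'
    rw [← Function.iterate_mul] at h4
    simp only [Function.comp_apply, id] at hk
    have h5 := norm_sub_norm_le ((fun w : ℂ => P.eval w)^[m * k] x) v
    linarith
  have hR := hE.one
  refine bdd_quasi (B := R / (2 * ρ) + 1) (by
    have : 0 ≤ R / (2 * ρ) := by positivity
    linarith) fun N => ?_
  have h3 : ‖deriv ((fun w : ℂ => P.eval w)^[N]) v‖ ≤ R / (2 * ρ) := by
    apply Complex.norm_deriv_le_of_forall_mem_sphere_norm_le (by linarith)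
    · exact (iter_differentiable N).diffContOnCl
    · intro z hz
      rw [mem_sphere, dist_eq_norm] at hz
      exact (h2 z hz.le N).le
  linarith

/-- The system. -/
theorem sys_nl (hP : 2 ≤ P.natDegree) (hE : Esc P R) {v : ℂ} (hK : v ∈ KR P 1 (ball 0 R))
    (hone : ∀ v' ∈ cvs P, v' ∈ KR P 1 (ball 0 R) → v' = v)
    (hne : ∀ j, (derivative P).eval (orb P v j) ≠ 0) :
    ∃ κ : ℝ, Sys (fun w : ℂ => P.eval w) v (fun j => ‖(derivative P).eval (orb P v j)‖)
      (fun j => infDist (orb P v j) (Zc P)) κ := by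
  obtain ⟨κ₀, hκ₀⟩ := val_bound hP hE.trap.kcpt (v := v) (fun c' hc' hcK' => by
    apply hone _ ((mem_cvs (by omega)).2 ⟨c', hc', rfl⟩)
    have := (KR_fwd hcK').2
    rwa [rf_one] at this)
  have h2 : (1 : ℝ) ≤ 2 ^ P.natDegree := one_le_pow₀ (by norm_num)
  refine ⟨2 ^ P.natDegree + |κ₀|, ⟨?_, fun j => norm_pos_iff.2 (hne j), fun j => Zc_pos hP (hne j),
    fun j => ?_, fun j w hw => ?_⟩⟩
  · have := abs_nonneg κ₀
    linarith
  · have h3 := hκ₀ (orb P v j) (orb_KR hK j)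
    have h4 : (fun w : ℂ => P.eval w)^[j + 1] v = P.eval (orb P v j) := orb_succ v j
    rw [h4]
    refine h3.trans ?_
    have h5 : 0 ≤ ‖(derivative P).eval (orb P v j)‖ * infDist (orb P v j) (Zc P) :=
      mul_nonneg (norm_nonneg _) infDist_nonneg
    gcongr
    have := le_abs_self κ₀
    linarith
  · have h4 : (fun w : ℂ => P.eval w)^[j + 1] v = P.eval (orb P v j) := orb_succ v j
    rw [h4]
    exact lin_bound hP (hne j) (le_add_of_nonneg_right (abs_nonneg κ₀)) hw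

end Pool.Agent.Zk29.Nl
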