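import Pool.Agent.Zk29.Nl.N6

/-!
# The bound for the derivatives, main theorem
-/

set_option autoImplicit false
open Set Filter Topology Metric MeasureTheory Polynomial
open scoped ENNReal

namespace Pool.Agent.Zk29.Nl

open Pool.Agent.Zk29.Rat Pool.Agent.Zk29.Ab

variable {P : ℂ[X]} {d : ℕ} {R : ℝ}

/-- The closing inequalities. -/
theorem cl_nl (hd : 2 ≤ P.natDegree) (hE : Esc P R) {c : ℂ}
    (hc : (derivative P).eval c = 0) (hK : P.eval c ∈ KR P 1 (ball 0 R))
    (hone : ∀ v ∈ cvs P, v ∈ KR P 1 (ball 0 R) → v = P.eval c) {μ : ℂ → ℂ}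
    (hμ : InvK P 1 (ball 0 R) μ)
    (hnz : ¬ ∀ z, (derivative P).eval z * cau μ z = cau μ (P.eval z))
    (hne : ∀ j, (derivative P).eval (orb P (P.eval c) j) ≠ 0) :
    ∃ A : ℝ, 1 ≤ A ∧ Cl (fun w : ℂ => P.eval w) (P.eval c)
      (fun j => ‖(derivative P).eval (orb P (P.eval c) j)‖)
      (fun y M => y ∉ UR P 1 (ball 0 R) M) A (2 + Real.log (4 * R)) 1 := by
  have T := hE.trap
  have hR := hE.one
  have hR0 : 0 < R := by linarith
  have hKb : KR P 1 (ball 0 R) ⊆ ball 0 R := KR_sub 0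
  obtain ⟨C₀, hC₀, hlog⟩ := cau_log (hμ.bel T) hR0 hKb
  obtain ⟨Cm, hCm0, hCm⟩ : ∃ Cm : ℝ, 0 ≤ Cm ∧ ∀ a, ‖cau μ a‖ ≤ Cm := cau_bdd (hμ.bel T)
  obtain ⟨Cp, hCp0, hCp⟩ := lintegral_pole T
  obtain ⟨A, hA1, hA⟩ := core_nl hd rfl hE hc hK hone hμ hnz (Cμ := C₀ + 2 * Cm) (by positivity)
  obtain ⟨ω₁, hω₁⟩ : ∃ ω₁ : ℝ, ω₁ = 2 * Cp + 1 := ⟨_, rfl⟩
  have hω₁1 : 1 ≤ ω₁ := by linarith
  obtain ⟨A', hA'⟩ : ∃ A' : ℝ, A' = A * (ω₁ + 8) := ⟨_, rfl⟩
  have hAA' : A ≤ A' := by
    rw [hA']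
    exact le_mul_of_one_le_right (by linarith) (by linarith)
  have hA'1 : 1 ≤ A' := hA1.trans hAA'
  have hball : ∀ j, ‖orb P (P.eval c) j‖ ≤ R := by
    intro j
    have := hKb (orb_KR hK j)
    rw [mem_ball_zero_iff] at this
    exact this.le
  have hball0 : ‖P.eval c‖ ≤ R := hball 0
  refine ⟨A', hA'1, ⟨?_, ?_⟩⟩
  · intro J M y δ W hJ hM hy hδ hδ1 hsep hW hWs hyv
    obtain ⟨J', rfl⟩ : ∃ J', J = J' + 1 := ⟨J - 1, by omega⟩
    have hWA : W ^ A ≤ W ^ A' := Real.rpow_le_rpow_of_exponent_le hW hAA'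
    have hWA0 : 0 < W ^ A := Real.rpow_pos_of_pos (by linarith) A
    have hD := DD_dl (P := P) (P.eval c) (J' + 1)
    obtain ⟨D, hDe⟩ : ∃ D, D = DD (fun j => ‖(derivative P).eval (orb P (P.eval c) j)‖)
      (J' + 1) := ⟨_, rfl⟩
    have hD0 : 0 < D := by
      rw [hDe]
      exact Finset.prod_pos fun i _ => norm_pos_iff.2 (hne i)
    rw [← hDe] at hD ⊢
    have h1 := hA J' M y δ W ω₁ (fun j _ => hne j) hM hy hδ hδ1 hsep hW
      (by simp_rw [← DD_dl]; exact hWs)
      (by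
        refine le_trans ?_ hyv
        gcongr) (by linarith)
      (by
        calc ∫⁻ x in ball (0 : ℂ) R, ‖1 / (x - orb P (P.eval c) (J' + 1)) -
              1 / (x - P.eval c)‖ₑ
            ≤ ∫⁻ x in ball (0 : ℂ) R, (‖1 / (x - orb P (P.eval c) (J' + 1))‖ₑ +
              ‖1 / (x - P.eval c)‖ₑ) := lintegral_mono fun x => enorm_sub_le
          _ = (∫⁻ x in ball (0 : ℂ) R, ‖1 / (x - orb P (P.eval c) (J' + 1))‖ₑ) +
              ∫⁻ x in ball (0 : ℂ) R, ‖1 / (x - P.eval c)‖ₑ :=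
            lintegral_add_right _
              (measurable_const.div (measurable_id.sub_const _)).enorm
          _ ≤ ENNReal.ofReal (Cp * ‖(1 : ℂ)‖) + ENNReal.ofReal (Cp * ‖(1 : ℂ)‖) :=
            add_le_add (hCp 1 _) (hCp 1 _)
          _ = ENNReal.ofReal (2 * Cp) := by
            rw [← ENNReal.ofReal_add (by positivity) (by positivity), norm_one]
            congr 1
            ring
          _ ≤ ENNReal.ofReal ω₁ := ENNReal.ofReal_le_ofReal (by linarith))
      (by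
        calc _ ≤ ‖cau μ (orb P (P.eval c) (J' + 1))‖ + ‖cau μ (P.eval c)‖ := norm_sub_le _ _
          _ ≤ Cm + Cm := add_le_add (hCm _) (hCm _)
          _ ≤ (C₀ + 2 * Cm) * 1 := by linarith
          _ ≤ (C₀ + 2 * Cm) * ω₁ := by gcongr)
    rw [← hD] at h1
    have h2 : D * δ ≤ D * (A * W ^ A * (M : ℝ) ^ 2 * (D⁻¹ * ω₁)) := by gcongr
    refine h2.trans ?_
    have h3 : D * (A * W ^ A * (M : ℝ) ^ 2 * (D⁻¹ * ω₁)) = A * ω₁ * W ^ A * (M : ℝ) ^ 2 := by
      field_simp
    rw [h3, hA']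
    rw [← hA']
    have h4 : A * ω₁ ≤ A' := by
      rw [hA']
      gcongr
      linarith
    gcongr
  · intro J M y δ W hJ hM hy hδ hδ1 hsep hW hWs hyv
    obtain ⟨J', rfl⟩ : ∃ J', J = J' + 1 := ⟨J - 1, by omega⟩
    have hWA : W ^ A ≤ W ^ A' := Real.rpow_le_rpow_of_exponent_le hW hAA'
    have hWA0 : 0 < W ^ A := Real.rpow_pos_of_pos (by linarith) A
    have hD := DD_dl (P := P) (P.eval c) (J' + 1)
    obtain ⟨D, hDe⟩ : ∃ D, D = DD (fun j => ‖(derivative P).eval (orb P (P.eval c) j)‖)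
      (J' + 1) := ⟨_, rfl⟩
    have hD0 : 0 < D := by
      rw [hDe]
      exact Finset.prod_pos fun i _ => norm_pos_iff.2 (hne i)
    rw [← hDe] at hD ⊢
    change D * δ ≤ A' * W ^ A' * (M : ℝ) ^ 2 * (‖orb P (P.eval c) (J' + 1) - P.eval c‖ *
      (2 + Real.log (4 * R) - Real.log ‖orb P (P.eval c) (J' + 1) - P.eval c‖) ^ 1)
    rw [pow_one]
    have hl := hlog _ _ (hball (J' + 1)) hball0
    by_cases hz : orb P (P.eval c) (J' + 1) = P.eval c
    · have h1 := hA J' M y δ W 0 (fun j _ => hne j) hM hy hδ hδ1 hsep hW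
        (by simp_rw [← DD_dl]; exact hWs)
        (by
          refine le_trans ?_ hyv
          gcongr) le_rfl
        (by
          rw [hz]
          simp) (by rw [hz]; simp)
      rw [mul_zero, mul_zero] at h1
      linarith
    · have hρ : 0 < ‖orb P (P.eval c) (J' + 1) - P.eval c‖ := norm_pos_iff.2 (sub_ne_zero.2 hz)
      have hρ2 : ‖orb P (P.eval c) (J' + 1) - P.eval c‖ ≤ 2 * R := by
        have := norm_sub_le (orb P (P.eval c) (J' + 1)) (P.eval c)
        have := hball (J' + 1)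
        linarith
      have htp := two_poles_gen hR0 (hball (J' + 1)) hball0 hz
      rw [log_form hR0 hρ] at htp
      obtain ⟨ρ, hρe⟩ : ∃ ρ, ρ = ‖orb P (P.eval c) (J' + 1) - P.eval c‖ := ⟨_, rfl⟩
      rw [← hρe] at hl hρ hρ2 htp ⊢
      obtain ⟨q, hq⟩ : ∃ q, q = ρ * (2 + Real.log (4 * R) - Real.log ρ) := ⟨_, rfl⟩
      rw [← hq] at hl htp ⊢
      have hq0 : 0 ≤ q := by
        rw [hq, ← log_form hR0 hρ]
        have : 0 ≤ Real.log (4 * R / ρ) := by
          apply Real.log_nonneg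
          rw [le_div_iff₀ hρ]
          linarith
        positivity
      have hpi := Real.pi_gt_three
      have hpi4 := Real.pi_le_four
      have h1 := hA J' M y δ W (2 * Real.pi * q) (fun j _ => hne j) hM hy hδ hδ1 hsep hW
        (by simp_rw [← DD_dl]; exact hWs)
        (by
          refine le_trans ?_ hyv
          gcongr) (by positivity) htp
        (by
          refine hl.trans ?_
          have h5 : q ≤ 2 * Real.pi * q := le_mul_of_one_le_left hq0 (by linarith)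
          calc C₀ * q ≤ (C₀ + 2 * Cm) * q := by gcongr; linarith
            _ ≤ (C₀ + 2 * Cm) * (2 * Real.pi * q) := by gcongr)
      rw [← hD] at h1
      have h2 : D * δ ≤ D * (A * W ^ A * (M : ℝ) ^ 2 * (D⁻¹ * (2 * Real.pi * q))) := by gcongr
      refine h2.trans ?_
      have h3 : D * (A * W ^ A * (M : ℝ) ^ 2 * (D⁻¹ * (2 * Real.pi * q))) =
          A * (2 * Real.pi) * W ^ A * (M : ℝ) ^ 2 * q := by
        field_simp
      rw [h3]
      have h4 : A * (2 * Real.pi) ≤ A' := by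
        rw [hA']
        gcongr
        linarith
      gcongr

/-- **The bound for the derivatives.** -/
theorem growth_nl (hd : 2 ≤ P.natDegree) (hE : Esc P R) {c : ℂ}
    (hc : (derivative P).eval c = 0) (hK : P.eval c ∈ KR P 1 (ball 0 R))
    (hone : ∀ v ∈ cvs P, v ∈ KR P 1 (ball 0 R) → v = P.eval c) {μ : ℂ → ℂ}
    (hμ : InvK P 1 (ball 0 R) μ)
    (hnz : ¬ ∀ z, (derivative P).eval z * cau μ z = cau μ (P.eval z)) :
    ∃ K : ℝ, ∀ N : ℕ, 2 ≤ N → ‖deriv ((fun w : ℂ => P.eval w)^[N]) (P.eval c)‖ ≤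
      Real.exp (K * Real.log N ^ 2) := by
  by_cases hne : ∀ j, (derivative P).eval (orb P (P.eval c) j) ≠ 0
  swap
  · push Not at hne
    obtain ⟨j, hj⟩ := hne
    exact crit_quasi hj
  obtain ⟨κ, S⟩ := sys_nl hd hE hK hone hne
  by_cases hdeep : ∃ m, 1 ≤ m ∧ Deep (fun w : ℂ => P.eval w) (P.eval c)
      (fun j => infDist (orb P (P.eval c) j) (Zc P)) κ m
  · obtain ⟨m, hm, h⟩ := hdeep
    exact deep_quasi hE hm h
  push Not at hdeep
  obtain ⟨A, hA1, C⟩ := cl_nl hd hE hc hK hone hμ hnz hne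
  have T := hE.trap
  have hR := hE.one
  have hlog4 : 0 ≤ Real.log (4 * R) := Real.log_nonneg (by linarith)
  obtain ⟨Θ, hΘ⟩ := T.kcpt.exists_bound_of_continuousOn
    (f := fun z => infDist z (Zc P)) (continuous_infDist_pt _).continuousOn
  obtain ⟨Λ, hΛ⟩ := T.kcpt.exists_bound_of_continuousOn
    (f := fun z => (derivative P).eval z) (derivative P).continuous.continuousOn
  obtain ⟨K, hKK⟩ := quasi C S hA1 (by rw [Nat.cast_one]; linarith) (by linarith)
    (fun j => by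
      change Real.log ‖orb P (P.eval c) j - P.eval c‖ ≤ _
      have hball : ∀ j, ‖orb P (P.eval c) j‖ ≤ R := by
        intro j
        have : orb P (P.eval c) j ∈ ball (0 : ℂ) R := KR_sub 0 (orb_KR hK j)
        rw [mem_ball_zero_iff] at this
        exact this.le
      have h1 : ‖orb P (P.eval c) j - P.eval c‖ ≤ 4 * R := by
        have h2 := norm_sub_le (orb P (P.eval c) j) (P.eval c)
        have h3 := hball j
        have h4 := hball 0
        rw [orb_zero] at h4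
        linarith
      rcases eq_or_ne (orb P (P.eval c) j) (P.eval c) with h0 | h0
      · rw [h0, sub_self, norm_zero, Real.log_zero]
        linarith
      · have h5 := Real.log_le_log (norm_pos_iff.2 (sub_ne_zero.2 h0)) h1
        linarith)
    (Θ := max 1 Θ) (Λ := max 1 Λ) (C₁ := R + 1) (le_max_left _ _) (le_max_left _ _)
    (by linarith)
    (fun j => by
      have h1 := hΘ _ (orb_KR hK j)
      rw [Real.norm_eq_abs] at h1
      exact (le_abs_self _).trans (h1.trans (le_max_right _ _)))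
    (fun j => (hΛ _ (orb_KR hK j)).trans (le_max_right _ _))
    (fun N s _ hs h => by
      rw [DD_deriv] at h
      exact cauchy_esc _ hs h)
    hdeep
  refine ⟨K, fun N hN => ?_⟩
  have := hKK N hN
  rwa [DD_deriv] at this

end Pool.Agent.Zk29.Nl
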